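import Pool.Agent.MP_fcd29e_an.H31.Spec3

/-!
Extension across the boundary: from the shell to the cone.
-/

set_option autoImplicit false

open MeasureTheory Complex Set Filter Topology Metric Pool.Agent.MP_fcd29e_an.H81
  Pool.Agent.MP_fcd29e_an.H31
open scoped ContDiff ComplexConjugate ENNReal NNReal FourierTransform SchwartzMap

namespace Pool.Agent.MP_fcd29e_an.H99

variable {N : ℕ}

theorem cv_hom (L : Lv0) (hN : 1 ≤ N) {a' b' a b : ℤ} {K G : E N → ℂ} (hK : Hom (E0 N) a' b' K)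
    (hG : Hom (E0 N) a b G) (c : ℂ) (hc : c ≠ 0) (x : E N) :
    Cv K G (c • x) = c ^ (a + a' + N) * conj c ^ (b + b' + N) * Cv K G x := by
  have : Nonempty (Fin N) := ⟨⟨0, hN⟩⟩
  have h0 := (L.t0.1 N c hc).1 fun y => K (c • x - y) * G y
  have hn : ((‖c‖ ^ (2 * N) : ℝ) : ℂ) ≠ 0 := by
    exact_mod_cast pow_ne_zero _ (norm_ne_zero_iff.2 hc)
  have hc' : conj c ≠ 0 := by simpa using hc
  have e : ((‖c‖ ^ (2 * N) : ℝ) : ℂ) = c ^ N * conj c ^ N := by
    rw [← mul_pow, Complex.mul_conj, Complex.normSq_eq_norm_sq, pow_mul]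
    push_cast
    ring
  have h1 : ∫ y, K (c • x - c • y) * G (c • y) =
      ((‖c‖ ^ (2 * N) : ℝ) : ℂ)⁻¹ * (c ^ (a + a' + N) * conj c ^ (b + b' + N) * Cv K G x) := by
    rw [Cv, ← integral_const_mul, ← integral_const_mul]
    refine integral_congr_ae ?_
    filter_upwards [Measure.ae_ne volume (0 : E N), Measure.ae_ne volume x] with y hy hx
    rw [← smul_sub, hK c hc (x - y) (sub_ne_zero.2 hx.symm), hG c hc y hy, e]
    simp only [zpow_add₀ hc, zpow_add₀ hc', zpow_natCast]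
    field_simp
  rw [h1] at h0
  exact (mul_left_cancel₀ (inv_ne_zero hn) h0).symm

theorem cv_meas (hN : 1 ≤ N) {K G : E N → ℂ} (hK : ContinuousOn K (E0 N))
    (hG : AEStronglyMeasurable G volume) : AEStronglyMeasurable (Cv K G) volume := by
  have : Nonempty (Fin N) := ⟨⟨0, hN⟩⟩
  have h1 : AEStronglyMeasurable K volume := by
    have := hK.aestronglyMeasurable (μ := volume) isOpen_E0.measurableSet
    rwa [restrict_compl_singleton] at this
  exact (hG.convolution_integrand (ContinuousLinearMap.mul ℝ ℂ).flip h1).integral_prod_right'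

theorem tkb (L : Lv2) (h : StmtHOP) (h' : StmtTKa) : StmtTKb := by
  intro N hN ρ hρ s hs K G a' b' a b hK hKh h1 h2 hW hD hG
  obtain ⟨U, hU, hUe⟩ := h' N hN ρ hρ s hs K G a' b' hK hKh h1 h2 hW hD
  obtain ⟨κ, hκ⟩ := L.t3.1
  obtain ⟨T1, T2, -, -, T5⟩ := L.t4 N (a + a' + N) (b + b' + N)
  refine ⟨Hop κ (a + a' + N) (b + b' + N) U, h N hN s hs.le κ hκ _ _ U hU, T1 _, ?_⟩
  set σ : E N → ℂ := (Om ρ).indicator fun _ => 1 with hσ
  have hinv : ∀ c : ℂ, c ≠ 0 → ∀ z, σ (c • z) = σ z := fun c hc z => by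
    have : c • z ∈ Om ρ ↔ z ∈ Om ρ := by
      simp only [Om, mem_ofPred_eq, hρ.inv c hc z, ne_eq, smul_eq_zero, hc, false_or]
    by_cases hz : z ∈ Om ρ
    · rw [hσ, indicator_of_mem hz, indicator_of_mem (this.2 hz)]
    · rw [hσ, indicator_of_notMem hz, indicator_of_notMem fun h => hz (this.1 h)]
  have hm : AEStronglyMeasurable (Cv K G) volume := cv_meas hN hK.continuousOn hW.1
  have hA : AH (E0 N) (a + a' + N) (b + b' + N) (Cv K G) := fun c hc =>
    Eventually.of_forall fun z _ => cv_hom L.toLv0 hN hKh hG c hc z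
  have hE : Hop κ (a + a' + N) (b + b' + N) (fun y => σ y * U y) =
      Hop κ (a + a' + N) (b + b' + N) fun y => σ y * Cv K G y := by
    unfold Hop
    congr 1
    funext y
    by_cases hk : κ (‖y‖ ^ 2) = 0
    · simp [hk]
    · by_cases hy : y ∈ Om ρ
      · simp only [hUe y ⟨hy, (hκ.supp _ hk).1.le, (hκ.supp _ hk).2.le⟩]
      · simp [hσ, indicator_of_notMem hy]
  filter_upwards [(T5 κ hκ _ hm).2.1 hN hA] with x hx hxO
  have e1 := T2 σ U hinv κ x
  rw [hE, T2 σ (Cv K G) hinv κ x, hx, hσ, indicator_of_mem hxO, one_mul, one_mul] at e1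
  exact e1.symm

end Pool.Agent.MP_fcd29e_an.H99
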