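import Pool.Agent.MP_fcd29e_an.H11.CS

/-!
The regularised minimum of two positive superharmonic functions.
-/

set_option autoImplicit false

open Complex Set Filter Topology Pool.Agent.MP_fcd29e_an.H11
open scoped ContDiff

namespace Pool.Agent.MP_fcd29e_an.H99

noncomputable section

/-- A smooth step from `0` to `1` on `[-1, 1]`. -/
def mnT (s : ℝ) : ℝ := Real.smoothTransition ((s + 1) / 2)

/-- Its primitive. -/
def mnP (y : ℝ) : ℝ := ∫ s in (-1 : ℝ)..y, mnT s

/-- The profile. -/
def mnM (e x : ℝ) : ℝ := 1 - e * mnP ((1 - x) / e)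

theorem mnT_smooth : ContDiff ℝ ∞ mnT := by
  unfold mnT
  exact Real.smoothTransition.contDiff.comp (by fun_prop)

theorem mnT_mono : Monotone mnT := fun a b h =>
  Real.smoothTransition.monotone (by linarith)

theorem mnT_symm (s : ℝ) : mnT s + mnT (-s) = 1 := by
  unfold mnT Real.smoothTransition
  have h1 : 1 - (s + 1) / 2 = (-s + 1) / 2 := by ring
  have h2 : 1 - (-s + 1) / 2 = (s + 1) / 2 := by ring
  have h3 := Real.smoothTransition.pos_denom ((s + 1) / 2)
  rw [h1] at h3
  rw [h1, h2, add_comm (expNegInvGlue ((-s + 1) / 2)), ← add_div, div_self h3.ne']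

theorem mnP_deriv (y : ℝ) : HasDerivAt mnP (mnT y) y :=
  (mnT_smooth.continuous.integral_hasStrictDerivAt (-1) y).hasDerivAt

theorem mnP_smooth : ContDiff ℝ ∞ mnP := by
  rw [contDiff_infty_iff_deriv]
  refine ⟨fun y => (mnP_deriv y).differentiableAt, ?_⟩
  have : deriv mnP = mnT := funext fun y => (mnP_deriv y).deriv
  rw [this]
  exact mnT_smooth

theorem mnP_low {y : ℝ} (hy : y ≤ -1) : mnP y = 0 := by
  unfold mnP
  rw [intervalIntegral.integral_congr (g := fun _ => (0 : ℝ))]
  · simp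
  · intro s hs
    rw [uIcc_of_ge hy] at hs
    exact Real.smoothTransition.zero_of_nonpos (by linarith [hs.2])

theorem mnP_odd (y : ℝ) : mnP y - mnP (-y) = y := by
  have h : ∀ t, HasDerivAt (fun t => mnP t - mnP (-t) - t) 0 t := by
    intro t
    have h1 := ((mnP_deriv t).sub ((mnP_deriv (-t)).comp t (hasDerivAt_neg t))).sub
      (hasDerivAt_id t)
    have h2 : mnT t - mnT (-t) * -1 - 1 = 0 := by
      have := mnT_symm t
      linarith
    rw [h2] at h1
    exact h1
  have h2 := is_const_of_deriv_eq_zero (fun t => (h t).differentiableAt) (fun t => (h t).deriv) y 0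
  simp only [neg_zero, sub_self] at h2
  linarith

theorem mnP_high {y : ℝ} (hy : 1 ≤ y) : mnP y = y := by
  have h1 := mnP_odd y
  rw [mnP_low (y := -y) (by linarith)] at h1
  linarith

theorem mnM_smooth (e : ℝ) : ContDiff ℝ ∞ (mnM e) := by
  unfold mnM
  exact contDiff_const.sub (contDiff_const.mul (mnP_smooth.comp (by fun_prop)))

theorem mnM_deriv {e : ℝ} (he : 0 < e) (x : ℝ) : HasDerivAt (mnM e) (mnT ((1 - x) / e)) x := by
  have h0 : HasDerivAt (fun x : ℝ => (1 - x) / e) (-1 / e) x := by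
    simpa using ((hasDerivAt_id x).const_sub 1).div_const e
  have h1 := (((mnP_deriv ((1 - x) / e)).comp x h0).const_mul e).const_sub 1
  have h2 : -(e * (mnT ((1 - x) / e) * (-1 / e))) = mnT ((1 - x) / e) := by
    field_simp
  rw [h2] at h1
  exact h1

theorem mnM_deriv' {e : ℝ} (he : 0 < e) : deriv (mnM e) = fun x => mnT ((1 - x) / e) :=
  funext fun x => (mnM_deriv he x).deriv

theorem mnM_anti {e : ℝ} (he : 0 < e) : Antitone (deriv (mnM e)) := by
  rw [mnM_deriv' he]
  intro a b h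
  exact mnT_mono (div_le_div_of_nonneg_right (by linarith) he.le)

theorem mnM_d_nonneg {e : ℝ} (he : 0 < e) (x : ℝ) : 0 ≤ deriv (mnM e) x := by
  rw [mnM_deriv' he]
  exact Real.smoothTransition.nonneg _

theorem mnM_low {e x : ℝ} (he : 0 < e) (hx : x ≤ 1 - e) : mnM e x = x := by
  unfold mnM
  rw [mnP_high (by rw [le_div_iff₀ he]; linarith)]
  field_simp
  ring

theorem mnM_high {e x : ℝ} (he : 0 < e) (hx : 1 + e ≤ x) : mnM e x = 1 := by
  unfold mnM
  rw [mnP_low (by rw [div_le_iff₀ he]; linarith)]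
  ring

theorem mnM_pos {e x : ℝ} (he : 0 < e) (he1 : e < 1) (hx : 0 < x) : 0 < mnM e x := by
  have hm : Monotone (mnM e) :=
    monotone_of_deriv_nonneg (fun y => (mnM_deriv he y).differentiableAt) (mnM_d_nonneg he)
  have h1 := hm (min_le_left x (1 - e))
  rw [mnM_low he (min_le_right x (1 - e))] at h1
  exact lt_of_lt_of_le (lt_min hx (by linarith)) h1

theorem mnM_conc {e x : ℝ} (he : 0 < e) (he1 : e < 1) (hx : 0 < x) :
    x * deriv (mnM e) x ≤ mnM e x := by
  obtain ⟨c, hc, h⟩ := exists_deriv_eq_slope (mnM e) hx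
    (mnM_smooth e).continuous.continuousOn
    (fun y _ => (mnM_deriv he y).differentiableAt.differentiableWithinAt)
  rw [mnM_low he (x := 0) (by linarith), sub_zero, sub_zero, eq_div_iff hx.ne'] at h
  have h2 := mnM_anti he hc.2.le
  nlinarith

theorem mn_hs (hHS : SHS) (m : ℝ → ℝ) (hm : ContDiff ℝ ∞ m) (f g : ℂ → ℝ) (z v : ℂ)
    (hf : ContDiffAt ℝ 2 f z) (hg : ContDiffAt ℝ 2 g z) (h0 : g z ≠ 0) :
    hs (fun y => g y * m (f y / g y)) z v =
      deriv m (f z / g z) * hs f z v +
        (m (f z / g z) - f z / g z * deriv m (f z / g z)) * hs g z v +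
        g z * deriv (deriv m) (f z / g z) * fderiv ℝ (fun y => f y / g y) z v ^ 2 := by
  have hq : ContDiffAt ℝ 2 (fun y => f y / g y) z := hf.div hg h0
  have hm2 : ContDiffAt ℝ 2 m (f z / g z) := (hm.of_le (by
    exact WithTop.coe_le_coe.2 (le_top : (2 : ℕ∞) ≤ ⊤))).contDiffAt
  have hmq : ContDiffAt ℝ 2 (fun y => m (f y / g y)) z := hm2.comp z hq
  have e1 := (hHS.add ℂ g (fun y => m (f y / g y)) z v hg hmq).2.2
  have e2 := hHS.comp ℂ (fun y => f y / g y) m z v hq hm2
  have e3 := (hHS.add ℂ g (fun y => f y / g y) z v hg hq).2.2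
  have e4 : hs f z v = hs (fun y => g y * (f y / g y)) z v := by
    refine hHS.congr ℂ _ _ z v ?_
    filter_upwards [hg.continuousAt.eventually_ne h0] with y hy
    field_simp
  have e5 : fderiv ℝ (fun y => m (f y / g y)) z v =
      deriv m (f z / g z) * fderiv ℝ (fun y => f y / g y) z v := by
    have h1 := ((hm2.differentiableAt (by norm_num)).hasDerivAt).comp_hasFDerivAt z
      (hq.differentiableAt (by norm_num)).hasFDerivAt
    have h2 := h1.fderiv
    have h3 : fderiv ℝ (fun y => m (f y / g y)) z =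
        deriv m (f z / g z) • fderiv ℝ (fun y => f y / g y) z := h2
    rw [h3]
    rfl
  rw [e1, e2, e5, e4, e3]
  ring

theorem smn (hHS : SHS) : SMN := by
  intro e he he1
  refine ⟨fun p => p.2 * mnM e (p.1 / p.2), fun a b ha hb => ⟨?_, ?_, ?_, ?_, ?_⟩, ?_⟩
  · exact contDiffAt_snd.mul ((mnM_smooth e).contDiffAt.comp _
      (contDiffAt_fst.div contDiffAt_snd hb.ne'))
  · exact mul_pos hb (mnM_pos he he1 (div_pos ha hb))
  · intro h
    change b * mnM e (a / b) = a
    rw [mnM_low he (by rw [div_le_iff₀ hb]; exact h)]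
    field_simp
  · intro h
    change b * mnM e (a / b) = b
    rw [mnM_high he (by rw [le_div_iff₀ hb]; exact h), mul_one]
  · intro l hl
    change l * b * mnM e (l * a / (l * b)) = l * (b * mnM e (a / b))
    rw [mul_div_mul_left a b hl.ne', mul_assoc]
  · intro f g z hf hg hf0 hg0 lf lg
    have h1 := mn_hs hHS (mnM e) (mnM_smooth e) f g z 1 hf hg hg0.ne'
    have h2 := mn_hs hHS (mnM e) (mnM_smooth e) f g z (I • (1 : ℂ)) hf hg hg0.ne'
    have hq : 0 < f z / g z := div_pos hf0 hg0
    have p1 := mnM_d_nonneg he (f z / g z)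
    have p2 := mnM_conc he he1 hq
    have p3 := mnM_pos he he1 hq
    have p4 : deriv (deriv (mnM e)) (f z / g z) ≤ 0 := (mnM_anti he).deriv_nonpos
    change hs (fun y => g y * mnM e (f y / g y)) z 1 +
      hs (fun y => g y * mnM e (f y / g y)) z (I • (1 : ℂ)) < 0
    change hs f z 1 + hs f z (I • (1 : ℂ)) < 0 at lf
    change hs g z 1 + hs g z (I • (1 : ℂ)) < 0 at lg
    rw [h1, h2]
    generalize deriv (deriv (mnM e)) (f z / g z) = d2 at *
    generalize deriv (mnM e) (f z / g z) = d1 at *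
    generalize mnM e (f z / g z) = d0 at *
    have q1 : g z * d2 * fderiv ℝ (fun y => f y / g y) z 1 ^ 2 ≤ 0 :=
      mul_nonpos_of_nonpos_of_nonneg (mul_nonpos_of_nonneg_of_nonpos hg0.le p4) (sq_nonneg _)
    have q2 : g z * d2 * fderiv ℝ (fun y => f y / g y) z (I • (1 : ℂ)) ^ 2 ≤ 0 :=
      mul_nonpos_of_nonpos_of_nonneg (mul_nonpos_of_nonneg_of_nonpos hg0.le p4) (sq_nonneg _)
    have q3 : d1 * (hs f z 1 + hs f z (I • (1 : ℂ))) +
        (d0 - f z / g z * d1) * (hs g z 1 + hs g z (I • (1 : ℂ))) < 0 := by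
      rcases p1.eq_or_lt with h | h
      · rw [← h]
        have := mul_neg_of_pos_of_neg p3 lg
        linarith
      · have a1 := mul_neg_of_pos_of_neg h lf
        have a2 := mul_nonpos_of_nonneg_of_nonpos (sub_nonneg.2 p2) lg.le
        linarith
    linarith

end

end Pool.Agent.MP_fcd29e_an.H99
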