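import Pool.Agent.MP_fcd29e_an.H81.Spec2

/-!
The domain, the weights and the cut-off function at level `L`.
-/

set_option autoImplicit false

open Pool.Agent.MP_fcd29e_an.H81 MeasureTheory Complex Set Filter Topology Metric
open scoped ContDiff ComplexConjugate ENNReal NNReal

namespace Pool.Agent.MP_fcd29e_an.H99

namespace G1A

variable {N : ℕ}

theorem d_le {ρ : E N → ℝ} {K : Set (E N)} (hK : KS ρ K) (z : E N) : infDist z K ≤ ‖z‖ := by
  obtain ⟨p, hp⟩ := hK.ne
  have h1 : Tendsto (fun c : ℂ => dist z (c • p)) (𝓝[≠] 0) (𝓝 ‖z‖) := by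
    have : Continuous fun c : ℂ => dist z (c • p) := by fun_prop
    have h2 := (this.tendsto 0).mono_left (nhdsWithin_le_nhds (s := {0}ᶜ))
    simpa using h2
  refine ge_of_tendsto h1 ?_
  filter_upwards [self_mem_nhdsWithin] with c hc
  exact infDist_le_dist_of_mem (hK.cone.2 c hc p hp)

theorem two_exp (a b : ℝ) (h : a + 1 ≤ b) : 2 * Real.exp a ≤ Real.exp b := by
  have h1 : (2 : ℝ) ≤ Real.exp 1 := by linarith [Real.add_one_le_exp (1 : ℝ)]
  calc 2 * Real.exp a ≤ Real.exp 1 * Real.exp a := by gcongr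
    _ = Real.exp (a + 1) := by rw [← Real.exp_add, add_comm]
    _ ≤ Real.exp b := Real.exp_le_exp.2 h

theorem bdd {L t : ℝ} (hL : 2 ≤ L) (ht : 0 < t)
    (h : Real.exp (-(2 * L)) * t ^ 2 < 2 * L + 7 + Real.log t) : t ≤ Real.exp (4 * L) := by
  by_contra hc
  rw [not_le] at hc
  have h1 : Real.log t ≤ t - 1 := Real.log_le_sub_one_of_pos ht
  have h2 : 4 * L + 1 ≤ Real.exp (4 * L) := Real.add_one_le_exp _
  have h3 : 2 * L + 1 ≤ Real.exp (2 * L) := Real.add_one_le_exp _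
  have h4 : Real.exp (-(2 * L)) * Real.exp (4 * L) = Real.exp (2 * L) := by
    rw [← Real.exp_add]; ring_nf
  have h5 : Real.exp (2 * L) ≤ Real.exp (-(2 * L)) * t := by
    rw [← h4]; exact mul_le_mul_of_nonneg_left hc.le (Real.exp_pos _).le
  have h6 : 5 * t ≤ Real.exp (-(2 * L)) * t * t := by
    refine mul_le_mul_of_nonneg_right ?_ ht.le
    linarith
  nlinarith

theorem geo (hq : StmtQA) (hl : StmtLOG) {ρ : E N → ℝ} {K : Set (E N)} (hN : 4 ≤ N)
    (hK : KS ρ K) {C0 : ℝ} (hC0 : ∀ s, |deriv cut s| ≤ C0) (L : ℕ) (hL : 2 ≤ L) {V : E N → ℝ}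
    (hV : VE K (Real.exp (-(2 * L + 9))) V) :
    ∃ χ D p ψ m c, Geo K (Real.exp (4 * N) + 4 * C0) L χ D p ψ m c := by
  classical
  have hL' : (2 : ℝ) ≤ L := by exact_mod_cast hL
  have hN' : (4 : ℝ) ≤ N := by exact_mod_cast hN
  have hC00 : 0 ≤ C0 := (abs_nonneg _).trans (hC0 0)
  obtain ⟨-, hcs, hcut, -, C1, -, hth⟩ := hl
  set W : Set (E N) := {z | 2 * Real.exp (-(2 * L + 9)) < infDist z K} with hW
  have hWo : IsOpen W := isOpen_lt continuous_const (continuous_infDist_pt K)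
  have hWd : ∀ z ∈ W, 0 < infDist z K := fun z hz => lt_trans (by positivity) hz
  have hW0 : ∀ z ∈ W, 0 < ‖z‖ := fun z hz => (hWd z hz).trans_le (d_le hK z)
  have hWin : ∀ (a : ℝ) (z : E N), -(2 * L + 7) ≤ a → Real.exp a ≤ infDist z K → z ∈ W := by
    intro a z ha hz
    have h1 := two_exp (-(2 * L + 9)) (-(2 * L + 8)) (by linarith)
    have h2 : Real.exp (-(2 * L + 8)) < Real.exp a := Real.exp_lt_exp.2 (by linarith)
    exact (h1.trans_lt h2).trans_le hz
  have hVat : ∀ z ∈ W, ContDiffAt ℝ ∞ V z := fun z hz => hV.smooth.contDiffAt (hWo.mem_nhds hz)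
  have hns : ContDiff ℝ ∞ fun y : E N => ‖y‖ ^ 2 := contDiff_norm_sq ℝ
  have hlog : ∀ z ∈ W, ContDiffAt ℝ ∞ (fun y : E N => Real.log (‖y‖ ^ 2)) z := fun z hz =>
    hns.contDiffAt.log (pow_pos (hW0 z hz) 2).ne'
  have hV1 : ∀ z ∈ W, -V z ≤ Real.log (infDist z K) + 1 := fun z hz => by
    linarith [(abs_le.1 (hV.near z hz)).1]
  have hV2 : ∀ z ∈ W, V z ≤ 1 - Real.log (infDist z K) := fun z hz => by
    linarith [(abs_le.1 (hV.near z hz)).2]
  set p : E N → ℝ := fun y => 1 * V y + Real.exp (-(2 * L)) * ‖y‖ ^ 2 with hp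
  set ψ : E N → ℝ := fun y => (4 * N : ℝ) * V y + (N + 3 : ℝ) * Real.log (‖y‖ ^ 2) with hψ
  have hpat : ∀ z ∈ W, ContDiffAt ℝ ∞ p z := fun z hz =>
    (contDiffAt_const.mul (hVat z hz)).add (contDiffAt_const.mul hns.contDiffAt)
  have hψat : ∀ z ∈ W, ContDiffAt ℝ ∞ ψ z := fun z hz =>
    (contDiffAt_const.mul (hVat z hz)).add (contDiffAt_const.mul (hlog z hz))
  set D : Set (E N) := {z | z ∈ W ∧ p z < 2 * L + 6} with hD
  set S : Set (E N) := {z | Real.exp (-(2 * L + 7)) ≤ infDist z K ∧ ‖z‖ ≤ Real.exp (4 * L)}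
    with hS
  have hSW : S ⊆ W := fun z hz => hWin _ z le_rfl hz.1
  have hSc : IsCompact S := by
    refine (isCompact_closedBall (0 : E N) (Real.exp (4 * L))).of_isClosed_subset ?_
      fun z hz => mem_closedBall_zero_iff.2 hz.2
    exact (isClosed_le continuous_const (continuous_infDist_pt K)).inter
      (isClosed_le continuous_norm continuous_const)
  have hDS : D ⊆ S := by
    intro z hz
    have h1 := hV1 z hz.1
    have h2 : 1 * V z + Real.exp (-(2 * L)) * ‖z‖ ^ 2 < 2 * L + 6 := hz.2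
    have h3 : 0 ≤ Real.exp (-(2 * L)) * ‖z‖ ^ 2 := by positivity
    refine ⟨?_, bdd hL' (hW0 z hz.1) ?_⟩
    · rw [← Real.le_log_iff_exp_le (hWd z hz.1)]; linarith
    · have h4 := Real.log_le_log (hWd z hz.1) (d_le hK z)
      linarith
  have hcpt : ∀ c' < 2 * (L : ℝ) + 6, IsCompact {z | z ∈ D ∧ p z ≤ c'} := by
    intro c' hc'
    have e : {z | z ∈ D ∧ p z ≤ c'} = S ∩ p ⁻¹' Iic c' :=
      Subset.antisymm (fun z hz => ⟨hDS hz.1, hz.2⟩)
        fun z hz => ⟨⟨hSW hz.1, lt_of_le_of_lt hz.2 hc'⟩, hz.2⟩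
    rw [e]
    refine hSc.of_isClosed_subset ?_ inter_subset_left
    exact ContinuousOn.preimage_isClosed_of_isClosed
      (fun z hz => (hpat z (hSW hz)).continuousAt.continuousWithinAt) hSc.isClosed isClosed_Iic
  set χ : E N → ℝ := fun z => if z ∈ W then 1 - cut (V z - 2 * L + 1) else 0 with hχ
  have hχW : ∀ z ∈ W, χ =ᶠ[𝓝 z] fun y => 1 - cut (V y - 2 * L + 1) := fun z hz => by
    filter_upwards [hWo.mem_nhds hz] with y hy
    exact if_pos hy
  have hχ0 : ∀ z, z ∉ W → χ =ᶠ[𝓝 z] fun _ => 0 := fun z hz => by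
    have h1 : infDist z K < Real.exp (-(2 * L + 2)) :=
      (not_lt.1 hz).trans_lt ((two_exp _ (-(2 * L + 8)) (by linarith)).trans_lt
        (Real.exp_lt_exp.2 (by linarith)))
    filter_upwards [(isOpen_lt (continuous_infDist_pt K) continuous_const).mem_nhds h1] with y hy
    by_cases hyW : y ∈ W
    · have h2 : Real.log (infDist y K) < -(2 * L + 2) :=
        (Real.log_lt_iff_lt_exp (hWd y hyW)).2 hy
      have h3 := hV1 y hyW
      simp only [hχ, if_pos hyW]
      rw [(hcut _).2.2.2.1 (by linarith), sub_self]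
    · exact if_neg hyW
  refine ⟨χ, D, p, ψ, fun z => (‖z‖ ^ 2)⁻¹, 2 * L + 6, ⟨?_, ?_, ?_, ?_, fun z hz => hz.2, hcpt,
    ?_, ?_, ?_, ?_, ?_, ?_, ?_⟩, fun z hz => hDS hz, ?_, ?_, ?_, ?_, ?_, ?_, ?_⟩
  · exact ContinuousOn.isOpen_inter_preimage (t := Iio (2 * (L : ℝ) + 6))
      (fun z hz => (hpat z hz).continuousAt.continuousWithinAt) hWo isOpen_Iio
  · exact hSc.isBounded.subset hDS
  · intro h
    simpa using hW0 0 h.1
  · exact fun z hz => (hpat z hz.1).contDiffWithinAt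
  · obtain ⟨G, hG⟩ := hSc.exists_bound_of_continuousOn (f := fderiv ℝ p) fun z hz =>
      ((hpat z (hSW hz)).continuousAt_fderiv (by simp)).continuousWithinAt
    exact ⟨G, fun z hz => hG z (hDS hz)⟩
  · refine ⟨Real.exp (-(2 * L)), Real.exp_pos _, fun z hz w => ?_⟩
    rw [hp, (((hq N z).1 V (hVat z hz.1)).2.1 _ hns.contDiffAt 1 _).2 w, (hq N z).2.1 w]
    have := hV.psh z hz.1 w
    simp only [add_re, re_ofReal_mul, ofReal_re]
    linarith
  · exact fun z hz => (hψat z hz.1).contDiffWithinAt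
  · obtain ⟨G, hG⟩ := hSc.exists_bound_of_continuousOn (f := ψ) fun z hz =>
      (hψat z (hSW hz)).continuousAt.continuousWithinAt
    exact ⟨G, fun z hz => hG z (hDS hz)⟩
  · exact fun z hz => (hns.continuous.continuousAt.inv₀
      (pow_pos (hW0 z hz.1) 2).ne').continuousWithinAt
  · refine ⟨(Real.exp (4 * L) ^ 2)⁻¹, by positivity, (Real.exp (-(2 * L + 7)) ^ 2)⁻¹,
      fun z hz => ⟨?_, ?_⟩⟩
    · have h1 := hW0 z hz.1
      have h2 := (hDS hz).2
      gcongr
    · have h2 := (hDS hz).1.trans (d_le hK z)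
      gcongr
  · intro z hz x hx
    rw [hψ, (((hq N z).1 V (hVat z hz.1)).2.1 _ (hlog z hz.1) _ _).1 x]
    have h1 := ((hq N z).1 V (hVat z hz.1)).1 0 (fun w => by simpa using hV.psh z hz.1 w) x hx
    have h2 := (hq N z).2.2.1 (norm_pos_iff.1 (hW0 z hz.1)) x hx
    have h3 : 0 ≤ (‖z‖ ^ 2)⁻¹ * ∑ j, ∑ k, ‖x j k‖ ^ 2 := by positivity
    rw [zero_mul, zero_mul] at h1
    rw [div_eq_mul_inv, mul_assoc] at h2
    have h4 : (‖z‖ ^ 2)⁻¹ * ∑ j, ∑ k, ‖x j k‖ ^ 2 ≤ QQ (fun y => Real.log (‖y‖ ^ 2)) z x := by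
      nlinarith
    nlinarith
  · refine contDiff_iff_contDiffAt.2 fun z => ?_
    by_cases hz : z ∈ W
    · refine ContDiffAt.congr_of_eventuallyEq ?_ (hχW z hz)
      exact contDiffAt_const.sub (hcs.contDiffAt.comp z
        (((hVat z hz).sub contDiffAt_const).add contDiffAt_const))
    · exact contDiffAt_const.congr_of_eventuallyEq (hχ0 z hz)
  · intro z
    simp only [hχ]
    split_ifs
    · constructor <;> linarith [(hcut (V z - 2 * L + 1)).1, (hcut (V z - 2 * L + 1)).2.1]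
    · exact ⟨le_rfl, zero_le_one⟩
  · intro z hz
    filter_upwards [(isOpen_lt continuous_const (continuous_infDist_pt K)).mem_nhds hz] with y hy
    have hyW : y ∈ W := hWin _ y (by linarith) (le_of_lt hy)
    have h2 : -(2 * L) + 1 < Real.log (infDist y K) :=
      (Real.lt_log_iff_exp_lt (hWd y hyW)).2 hy
    have h3 := hV2 y hyW
    simp only [hχ, if_pos hyW]
    rw [(hcut _).2.2.1 (by linarith), sub_zero]
  · intro z
    by_cases hz : z ∈ W
    · have h1 : HasFDerivAt (fun y => V y - 2 * L + 1) (fderiv ℝ V z) z :=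
        (((hVat z hz).differentiableAt (by simp)).hasFDerivAt.sub_const _).add_const _
      have h2 : HasDerivAt cut (deriv cut (V z - 2 * L + 1)) (V z - 2 * L + 1) :=
        (hcs.differentiable (by simp) _).hasDerivAt
      have h3 := (h2.comp_hasFDerivAt z h1).const_sub 1
      have h4 : fderiv ℝ χ z = -(deriv cut (V z - 2 * L + 1) • fderiv ℝ V z) :=
        (hχW z hz).fderiv_eq.trans h3.fderiv
      rw [h4, norm_neg, norm_smul, Real.norm_eq_abs]
      have h5 := hWd z hz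
      calc |deriv cut (V z - 2 * L + 1)| * ‖fderiv ℝ V z‖ ≤ C0 * (4 / infDist z K) :=
            mul_le_mul (hC0 _) (hV.grad z hz) (norm_nonneg _) hC00
        _ = 4 * C0 / infDist z K := by ring
        _ ≤ _ := by
            gcongr
            linarith [Real.exp_pos (4 * (N : ℝ))]
    · rw [(hχ0 z hz).fderiv_eq, fderiv_fun_const, Pi.zero_apply, norm_zero]
      exact div_nonneg (by positivity) infDist_nonneg
  · refine closure_minimal (fun z hz => ?_) (hcpt _ (by linarith)).isClosed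
    have h1 : χ z ≠ 0 := left_ne_zero_of_mul hz
    have h2 := (((hth L).2.1 _).2.2.1 (right_ne_zero_of_mul hz)).2
    have hzW : z ∈ W := by
      by_contra hc
      exact h1 (if_neg hc)
    have h3 : V z - 2 * L + 1 < 2 := by
      by_contra hc
      apply h1
      simp only [hχ, if_pos hzW]
      rw [(hcut _).2.2.2.1 (not_lt.1 hc), sub_self]
    have h4 : Real.exp (-(2 * L)) * ‖z‖ ^ 2 ≤ 2 := by
      have e : Real.exp (-(2 * L)) * (2 * Real.exp (2 * L)) = 2 := by
        rw [mul_left_comm, ← Real.exp_add]; simp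
      exact (mul_le_mul_of_nonneg_left h2.le (Real.exp_pos _).le).trans e.le
    have h5 : p z ≤ 2 * L + 3 := by
      simp only [hp]; linarith
    exact ⟨⟨hzW, by linarith⟩, by linarith⟩
  · intro z hz
    have h0 := hW0 z hz.1
    have hd := hWd z hz.1
    have e1 : Real.exp ((N + 3 : ℝ) * Real.log (‖z‖ ^ 2)) = ‖z‖ ^ (2 * N + 4) * ‖z‖ ^ 2 := by
      rw [show (N + 3 : ℝ) = ((N + 3 : ℕ) : ℝ) by push_cast; ring, Real.exp_nat_mul,
        Real.exp_log (by positivity)]
      ring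
    have e2 : Real.exp (-((4 * N : ℝ) * V z)) ≤ Real.exp (4 * N) * infDist z K ^ (4 * N) := by
      have : infDist z K ^ (4 * N) = Real.exp ((4 * N : ℝ) * Real.log (infDist z K)) := by
        rw [show (4 * N : ℝ) = ((4 * N : ℕ) : ℝ) by push_cast; ring, Real.exp_nat_mul,
          Real.exp_log hd]
      rw [this, ← Real.exp_add, Real.exp_le_exp]
      nlinarith [hV1 z hz.1]
    calc Real.exp (-ψ z) / (‖z‖ ^ 2)⁻¹
        = Real.exp (-((4 * N : ℝ) * V z)) / ‖z‖ ^ (2 * N + 4) := by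
          simp only [hψ]
          rw [neg_add, Real.exp_add, Real.exp_neg ((N + 3 : ℝ) * _), e1]
          field_simp
      _ ≤ _ := by
          gcongr
          refine e2.trans ?_
          gcongr
          linarith
  · intro z hz
    have h0 := hW0 z hz.1
    have hd := hWd z hz.1
    have e1 : Real.exp ((N + 3 : ℝ) * Real.log (‖z‖ ^ 2)) = ‖z‖ ^ (2 * N + 6) := by
      rw [show (N + 3 : ℝ) = ((N + 3 : ℕ) : ℝ) by push_cast; ring, Real.exp_nat_mul,
        Real.exp_log (by positivity)]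
      ring
    have e2 : Real.exp ((4 * N : ℝ) * V z) ≤ Real.exp (4 * N) / infDist z K ^ (4 * N) := by
      have : infDist z K ^ (4 * N) = Real.exp ((4 * N : ℝ) * Real.log (infDist z K)) := by
        rw [show (4 * N : ℝ) = ((4 * N : ℕ) : ℝ) by push_cast; ring, Real.exp_nat_mul,
          Real.exp_log hd]
      rw [this, ← Real.exp_sub, Real.exp_le_exp]
      nlinarith [hV2 z hz.1]
    calc Real.exp (ψ z) = Real.exp ((4 * N : ℝ) * V z) * ‖z‖ ^ (2 * N + 6) := by
          simp only [hψ]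
          rw [Real.exp_add, e1]
      _ ≤ Real.exp (4 * N) / infDist z K ^ (4 * N) * ‖z‖ ^ (2 * N + 6) := by gcongr
      _ = Real.exp (4 * N) * ‖z‖ ^ (2 * N + 6) / infDist z K ^ (4 * N) := by ring
      _ ≤ _ := by
          gcongr
          linarith

end G1A

theorem g1 (_L : Lv0) (hq : StmtQA) (hl : StmtLOG) : StmtG1 := by
  intro N ρ K hN hK hV
  obtain ⟨C0, hC0⟩ := hl.2.2.2.1
  have hC00 : 0 ≤ C0 := (abs_nonneg _).trans (hC0 0)
  refine ⟨Real.exp (4 * N) + 4 * C0, by positivity, fun L hL => ?_⟩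
  obtain ⟨V, hV⟩ := hV (Real.exp (-(2 * L + 9))) (Real.exp_pos _)
  exact G1A.geo hq hl hN hK hC0 L hL hV

end Pool.Agent.MP_fcd29e_an.H99
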