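import Pool.Agent.MP_fcd29e_an.H81.Spec2

/-!
The basic inequality for compactly supported forms with weak derivatives, by mollification.
-/

set_option autoImplicit false

open Pool.Agent.MP_fcd29e_an.H81 MeasureTheory Complex Set Filter Topology Metric
open scoped ContDiff ComplexConjugate ENNReal NNReal

namespace Pool.Agent.MP_fcd29e_an.H99

namespace H1wA

section Cp
variable {X : Type} [MeasurableSpace X] {μ : Measure X} {p : ℝ≥0∞} {ι : Type} {l : Filter ι}

/-- Convergence in `L^p`. -/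
structure Cp (l : Filter ι) (μ : Measure X) (p : ℝ≥0∞) {β : Type} [NormedAddCommGroup β]
    (F : ι → X → β) (f : X → β) : Prop where
  lim : MemLp f p μ
  ev : ∀ᶠ r in l, MemLp (F r) p μ
  cv : Tendsto (fun r => eLpNorm (fun z => F r z - f z) p μ) l (𝓝 0)

variable {β γ : Type} [NormedAddCommGroup β] [NormedAddCommGroup γ]

theorem Cp.map {F : ι → X → β} {f : X → β} (h : Cp l μ p F f) (T : X → β → γ) (C : ℝ)
    (hm : ∀ g : X → β, AEStronglyMeasurable g μ → AEStronglyMeasurable (fun z => T z (g z)) μ)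
    (h0 : ∀ᵐ z ∂μ, ∀ a, ‖T z a‖ ≤ C * ‖a‖) (hs : ∀ z a b, T z a - T z b = T z (a - b)) :
    Cp l μ p (fun r z => T z (F r z)) (fun z => T z (f z)) := by
  refine ⟨h.lim.of_le_mul (hm _ h.lim.1) (h0.mono fun z hz => hz _),
    h.ev.mono fun r hr => hr.of_le_mul (hm _ hr.1) (h0.mono fun z hz => hz _), ?_⟩
  have h1 := ENNReal.Tendsto.const_mul (a := ENNReal.ofReal C) h.cv (Or.inr ENNReal.ofReal_ne_top)
  rw [mul_zero] at h1
  refine tendsto_of_tendsto_of_tendsto_of_le_of_le tendsto_const_nhds h1 (fun _ => zero_le)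
    fun r => ?_
  refine eLpNorm_le_mul_eLpNorm_of_ae_le_mul (h0.mono fun z hz => ?_) p
  rw [hs]
  exact hz _

theorem Cp.add (hp : 1 ≤ p) {F G : ι → X → β} {f g : X → β} (h : Cp l μ p F f)
    (h' : Cp l μ p G g) : Cp l μ p (fun r z => F r z + G r z) (fun z => f z + g z) := by
  refine ⟨h.lim.add h'.lim, (h.ev.and h'.ev).mono fun r hr => hr.1.add hr.2, ?_⟩
  have h1 := h.cv.add h'.cv
  rw [add_zero] at h1
  refine tendsto_of_tendsto_of_tendsto_of_le_of_le' tendsto_const_nhds h1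
    (Eventually.of_forall fun _ => zero_le) ((h.ev.and h'.ev).mono fun r hr => ?_)
  have e : (fun z => F r z + G r z - (f z + g z)) =
      (fun z => F r z - f z) + fun z => G r z - g z := by
    funext z; simp only [Pi.add_apply]; abel
  rw [e]
  exact eLpNorm_add_le (hr.1.1.sub h.lim.1) (hr.2.1.sub h'.lim.1) hp

theorem Cp.neg {F : ι → X → β} {f : X → β} (h : Cp l μ p F f) :
    Cp l μ p (fun r z => -F r z) (fun z => -f z) :=
  h.map (fun _ a => -a) 1 (fun _ hg => hg.neg) (Eventually.of_forall fun _ a => by simp)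
    fun _ a b => by abel

theorem Cp.sub (hp : 1 ≤ p) {F G : ι → X → β} {f g : X → β} (h : Cp l μ p F f)
    (h' : Cp l μ p G g) : Cp l μ p (fun r z => F r z - G r z) (fun z => f z - g z) := by
  simpa only [sub_eq_add_neg] using h.add hp h'.neg

theorem Cp.sum (hp : 1 ≤ p) {κ : Type} (s : Finset κ) {F : κ → ι → X → β} {f : κ → X → β}
    (h : ∀ k, Cp l μ p (F k) (f k)) :
    Cp l μ p (fun r z => ∑ k ∈ s, F k r z) (fun z => ∑ k ∈ s, f k z) := by
  classical
  induction s using Finset.induction_on with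
  | empty =>
    simp only [Finset.sum_empty]
    exact ⟨MemLp.zero, Eventually.of_forall fun _ => MemLp.zero, by simpa using tendsto_const_nhds⟩
  | insert a s ha ih =>
    simp only [Finset.sum_insert ha]
    exact (h a).add hp ih

theorem Cp.re {F : ι → X → ℂ} {f : X → ℂ} (h : Cp l μ p F f) :
    Cp l μ p (fun r z => (F r z).re) (fun z => (f z).re) :=
  h.map (fun _ a => a.re) 1 (fun _ hg => Complex.continuous_re.comp_aestronglyMeasurable hg)
    (Eventually.of_forall fun _ a => by simpa using Complex.abs_re_le_norm a)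
    fun _ a b => by simp

theorem Cp.cj {F : ι → X → ℂ} {f : X → ℂ} (h : Cp l μ p F f) :
    Cp l μ p (fun r z => conj (F r z)) (fun z => conj (f z)) :=
  h.map (fun _ a => conj a) 1 (fun _ hg => Complex.continuous_conj.comp_aestronglyMeasurable hg)
    (Eventually.of_forall fun _ a => by simp) fun _ a b => by simp

theorem Cp.bmul {𝕜 : Type} [NormedField 𝕜] {F : ι → X → 𝕜} {f : X → 𝕜} (h : Cp l μ p F f)
    {a : X → 𝕜} (ha : AEStronglyMeasurable a μ ∧ ∃ C, ∀ᵐ z ∂μ, ‖a z‖ ≤ C) :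
    Cp l μ p (fun r z => a z * F r z) (fun z => a z * f z) := by
  obtain ⟨hm, C, hC⟩ := ha
  exact h.map (fun z b => a z * b) C (fun _ hg => hm.mul hg)
    (hC.mono fun z hz b => by rw [norm_mul]; exact mul_le_mul_of_nonneg_right hz (norm_nonneg _))
    fun _ _ _ => (mul_sub _ _ _).symm

theorem Cp.mulb {𝕜 : Type} [NormedField 𝕜] {F : ι → X → 𝕜} {f : X → 𝕜} (h : Cp l μ p F f)
    {a : X → 𝕜} (ha : AEStronglyMeasurable a μ ∧ ∃ C, ∀ᵐ z ∂μ, ‖a z‖ ≤ C) :
    Cp l μ p (fun r z => F r z * a z) (fun z => f z * a z) := by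
  simpa only [mul_comm] using h.bmul ha

theorem Cp.mul {F G : ι → X → ℂ} {f g : X → ℂ} (h : Cp l μ 2 F f) (h' : Cp l μ 2 G g) :
    Cp l μ 1 (fun r z => F r z * G r z) (fun z => f z * g z) := by
  refine ⟨h'.lim.mul' h.lim, (h.ev.and h'.ev).mono fun r hr => hr.2.mul' hr.1, ?_⟩
  have h1 := ENNReal.Tendsto.mul h.cv (Or.inr ENNReal.zero_ne_top) h'.cv
    (Or.inr ENNReal.zero_ne_top)
  have h2 := ENNReal.Tendsto.mul_const (b := eLpNorm g 2 μ) h.cv (Or.inr h'.lim.2.ne)
  have h3 := ENNReal.Tendsto.const_mul (a := eLpNorm f 2 μ) h'.cv (Or.inr h.lim.2.ne)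
  have h4 := (h1.add h2).add h3
  simp only [zero_mul, mul_zero, add_zero] at h4
  refine tendsto_of_tendsto_of_tendsto_of_le_of_le' tendsto_const_nhds h4
    (Eventually.of_forall fun _ => zero_le) ((h.ev.and h'.ev).mono fun r hr => ?_)
  have m1 : AEStronglyMeasurable (fun z => F r z - f z) μ := hr.1.1.sub h.lim.1
  have m2 : AEStronglyMeasurable (fun z => G r z - g z) μ := hr.2.1.sub h'.lim.1
  have e : (fun z => F r z * G r z - f z * g z) =
      (fun z => F r z - f z) • (fun z => G r z - g z) + (fun z => F r z - f z) • g +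
        f • fun z => G r z - g z := by
    funext z; simp only [Pi.add_apply, smul_eq_mul, Pi.mul_apply]; ring
  rw [e]
  refine (eLpNorm_add_le ((m1.smul m2).add (m1.smul h'.lim.1)) (h.lim.1.smul m2) le_rfl).trans ?_
  refine add_le_add ((eLpNorm_add_le (m1.smul m2) (m1.smul h'.lim.1) le_rfl).trans
    (add_le_add ?_ ?_)) ?_
  · exact eLpNorm_smul_le_mul_eLpNorm m2 m1
  · exact eLpNorm_smul_le_mul_eLpNorm h'.lim.1 m1
  · exact eLpNorm_smul_le_mul_eLpNorm m2 h.lim.1

theorem Cp.nsq {F : ι → X → ℂ} {f : X → ℂ} (h : Cp l μ 2 F f) :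
    Cp l μ 1 (fun r z => ‖F r z‖ ^ 2) (fun z => ‖f z‖ ^ 2) := by
  have e : ∀ a : ℂ, (a * conj a).re = ‖a‖ ^ 2 := fun a => by
    rw [Complex.mul_conj, Complex.ofReal_re, Complex.normSq_eq_norm_sq]
  simpa only [e] using (h.mul h.cj).re

theorem Cp.tendsto {F : ι → X → ℝ} {f : X → ℝ} (h : Cp l μ 1 F f) :
    Tendsto (fun r => ∫ z, F r z ∂μ) l (𝓝 (∫ z, f z ∂μ)) := by
  refine tendsto_integral_of_L1 f h.lim.1 (h.ev.mono fun r hr => memLp_one_iff_integrable.1 hr) ?_
  simpa only [eLpNorm_one_eq_lintegral_enorm] using h.cv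

end Cp

variable {N : ℕ}

theorem bd_of_cont {𝕜 : Type} [NormedField 𝕜] {K : Set (E N)} (hK : IsCompact K) {a : E N → 𝕜}
    (ha : ContinuousOn a K) :
    AEStronglyMeasurable a (volume.restrict K) ∧ ∃ C, ∀ᵐ z ∂(volume.restrict K), ‖a z‖ ≤ C := by
  obtain ⟨C, hC⟩ := hK.exists_bound_of_continuousOn ha
  exact ⟨ha.aestronglyMeasurable_of_isCompact hK hK.measurableSet, C,
    (ae_restrict_mem hK.measurableSet).mono hC⟩

theorem mo_zero (L : Lv0) (hN : 1 ≤ N) {r : ℝ} (hr : 0 < r) {K : Set (E N)} {g : E N → ℂ}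
    (hg : ∀ z ∉ K, g z = 0) {z : E N} (hz : z ∉ cthickening (2 * r) K) : Mo r g z = 0 := by
  obtain ⟨-, -, h2⟩ := (L.bm1 N hN).2.2.1 r hr
  have e : ∀ y, eta r (z - y) * g y = 0 := fun y => by
    by_cases hy : y ∈ K
    · rw [(h2 _).2.2.1 ?_, zero_mul]
      by_contra hc
      exact hz (mem_cthickening_of_dist_le z y _ _ hy (by rw [dist_eq_norm]; exact (not_le.1 hc).le))
    · rw [hg y hy, mul_zero]
  simp only [Mo, e, integral_zero]

theorem mo_cp (L : Lv0) (hN : 1 ≤ N) (K : Set (E N)) {g : E N → ℂ} (hg : MemLp g 2 volume) :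
    Cp (𝓝[>] (0 : ℝ)) (volume.restrict K) 2 (fun r z => Mo r g z) g := by
  refine ⟨hg.restrict K, ?_, ?_⟩
  · filter_upwards [self_mem_nhdsWithin] with r hr
    obtain ⟨ht, -, -⟩ := (L.bm1 N hN).2.2.1 r hr
    exact ((L.yg N).1 (eta r) g (ht.1.continuous.integrable_of_hasCompactSupport ht.2)
      hg).1.restrict K
  · exact tendsto_of_tendsto_of_tendsto_of_le_of_le tendsto_const_nhds ((L.yg N).2.2 hN g hg)
      (fun _ => zero_le) fun r => eLpNorm_mono_measure _ Measure.restrict_le_self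

theorem tst_shift {k : E N → ℂ} (hk : Tst k) (z : E N) :
    Tst (fun y => k (z - y)) ∧
      ∀ y v, fderiv ℝ (fun y => k (z - y)) y v = -fderiv ℝ k (z - y) v := by
  refine ⟨⟨hk.1.comp (contDiff_const.sub contDiff_id), ?_⟩, fun y v => ?_⟩
  · exact hk.2.comp_homeomorph (Homeomorph.subLeft z)
  · have h1 : HasFDerivAt k (fderiv ℝ k (z - y)) (z - y) :=
      (hk.1.differentiable (by simp)).differentiableAt.hasFDerivAt
    have h2 := (h1.comp y ((hasFDerivAt_id y).const_sub z)).fderiv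
    have h3 := congrArg (fun A : E N →L[ℝ] ℂ => A v) h2
    simpa using! h3

theorem int_fd {ψ g : E N → ℂ} (hψ : Tst ψ) (hg : LocallyIntegrable g) (v : E N) :
    Integrable fun y => fderiv ℝ ψ y v * g y :=
  hg.integrable_smul_left_of_hasCompactSupport
    ((hψ.1.continuous_fderiv (by simp)).clm_apply continuous_const) (hψ.2.fderiv_apply ℝ v)

theorem mo_d (L : Lv0) (hN : 1 ≤ N) {r : ℝ} (hr : 0 < r) {g : E N → ℂ}
    (hg : LocallyIntegrable g) (z : E N) (a : Fin N) :
    (Integrable (fun y => dz a (fun y => eta r (z - y)) y * g y) ∧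
      dz a (Mo r g) z = -∫ y, dz a (fun y => eta r (z - y)) y * g y) ∧
    Integrable (fun y => g y * dzb a (fun y => eta r (z - y)) y) ∧
      dzb a (Mo r g) z = -∫ y, g y * dzb a (fun y => eta r (z - y)) y := by
  obtain ⟨ht, -, -⟩ := (L.bm1 N hN).2.2.1 r hr
  obtain ⟨hs, hd⟩ := tst_shift ht z
  have h1 : ∀ v, fderiv ℝ (Mo r g) z v = -∫ y, fderiv ℝ (fun y => eta r (z - y)) y v * g y := by
    intro v
    simp only [hd, neg_mul, integral_neg, neg_neg]
    exact ((L.yg N).2.1 (eta r) g ht hg).2 z v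
  have i1 := int_fd hs hg (ee a)
  have i2 := (int_fd hs hg (I • ee a)).const_mul I
  have e1 : (fun y => dz a (fun y => eta r (z - y)) y * g y) = fun y =>
      (fderiv ℝ (fun y => eta r (z - y)) y (ee a) * g y -
        I * (fderiv ℝ (fun y => eta r (z - y)) y (I • ee a) * g y)) / 2 := by
    funext y; simp only [dz]; ring
  have e2 : (fun y => g y * dzb a (fun y => eta r (z - y)) y) = fun y =>
      (fderiv ℝ (fun y => eta r (z - y)) y (ee a) * g y +
        I * (fderiv ℝ (fun y => eta r (z - y)) y (I • ee a) * g y)) / 2 := by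
    funext y; simp only [dzb]; ring
  rw [e1, e2]
  refine ⟨⟨(i1.sub i2).div_const 2, ?_⟩, (i1.add i2).div_const 2, ?_⟩
  · rw [integral_div, integral_sub i1 i2, integral_const_mul, dz, h1, h1]; ring
  · rw [integral_div, integral_add i1 i2, integral_const_mul, dzb, h1, h1]; ring

theorem shift_test (L : Lv0) (hN : 1 ≤ N) {r : ℝ} (hr : 0 < r) {K D : Set (E N)}
    (hD : cthickening (4 * r) K ⊆ D) {z : E N} (hz : z ∈ cthickening (2 * r) K) :
    Test D fun y : E N => eta r (z - y) := by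
  obtain ⟨ht, -, h2⟩ := (L.bm1 N hN).2.2.1 r hr
  obtain ⟨hs, -⟩ := tst_shift ht z
  refine ⟨hs.1, hs.2, ?_⟩
  have h1 : tsupport (fun y : E N => eta r (z - y)) ⊆ closedBall z (2 * r) := by
    refine closure_minimal (fun y hy => ?_) isClosed_closedBall
    rw [mem_closedBall, dist_comm, dist_eq_norm]
    by_contra hc
    exact hy ((h2 _).2.2.1 (not_le.1 hc).le)
  refine h1.trans (Subset.trans (fun y hy => ?_) hD)
  have := cthickening_cthickening_subset (by positivity : 0 ≤ 2 * r) (by positivity : 0 ≤ 2 * r) K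
    (mem_cthickening_of_dist_le y z _ _ hz hy)
  rwa [show 2 * r + 2 * r = 4 * r by ring] at this

theorem d_zero (L : Lv0) (hN : 1 ≤ N) {r : ℝ} (hr : 0 < r) {K : Set (E N)} {g : E N → ℂ}
    (hg : ∀ z ∉ K, g z = 0) {z : E N} (hz : z ∉ cthickening (2 * r) K) (a : Fin N) :
    dz a (Mo r g) z = 0 ∧ dzb a (Mo r g) z = 0 := by
  have h : Mo r g =ᶠ[𝓝 z] fun _ => 0 := by
    filter_upwards [isClosed_cthickening.isOpen_compl.mem_nhds hz] with w hw
    exact mo_zero L hN hr hg hw
  simp [dz, dzb, h.fderiv_eq]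

theorem w3_id (L : Lv0) (hN : 1 ≤ N) {r : ℝ} (hr : 0 < r) {K D : Set (E N)}
    (hD : cthickening (4 * r) K ⊆ D) {x : Fin N → Fin N → E N → ℂ}
    {Y : Fin N → Fin N → Fin N → E N → ℂ}
    (hx : ∀ j k, MemLp (x j k) 2 volume ∧ ∀ z ∉ K, x j k z = 0)
    (hY : ∀ i j k, MemLp (Y i j k) 2 volume ∧ ∀ z ∉ K, Y i j k z = 0) (h : W3 D x Y)
    (i j k : Fin N) (z : E N) :
    dz i (Mo r (x j k)) z - dz j (Mo r (x i k)) z + dz k (Mo r (x i j)) z = Mo r (Y i j k) z := by
  have hKD : K ⊆ D := (self_subset_cthickening K).trans hD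
  by_cases hz : z ∈ cthickening (2 * r) K
  · have h1 := h i j k _ (shift_test L hN hr hD hz)
    rw [setIntegral_eq_integral_of_forall_compl_eq_zero,
      setIntegral_eq_integral_of_forall_compl_eq_zero] at h1
    · obtain ⟨a1, a2⟩ := (mo_d L hN hr ((hx j k).1.locallyIntegrable one_le_two) z i).1
      obtain ⟨b1, b2⟩ := (mo_d L hN hr ((hx i k).1.locallyIntegrable one_le_two) z j).1
      obtain ⟨c1, c2⟩ := (mo_d L hN hr ((hx i j).1.locallyIntegrable one_le_two) z k).1
      simp only [w3] at h1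
      have ab : Integrable fun y => dz i (fun y => eta r (z - y)) y * x j k y -
          dz j (fun y => eta r (z - y)) y * x i k y := a1.sub b1
      rw [integral_add ab c1, integral_sub a1 b1] at h1
      rw [a2, b2, c2, Mo]
      simp only [mul_comm (eta r (z - _))]
      linear_combination -h1
    · intro y hy
      rw [(hY i j k).2 y fun hc => hy (hKD hc), zero_mul]
    · intro y hy
      have hy' : y ∉ K := fun hc => hy (hKD hc)
      simp only [w3, (hx _ _).2 y hy', mul_zero, sub_zero, add_zero]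
  · rw [(d_zero L hN hr (hx j k).2 hz i).1, (d_zero L hN hr (hx i k).2 hz j).1,
      (d_zero L hN hr (hx i j).2 hz k).1, mo_zero L hN hr (hY i j k).2 hz]
    ring

theorem ws_id (L : Lv0) (hN : 1 ≤ N) {r : ℝ} (hr : 0 < r) {K D : Set (E N)}
    (hD : cthickening (4 * r) K ⊆ D) {x : Fin N → Fin N → E N → ℂ} {s : Fin N → E N → ℂ}
    (hx : ∀ j k, MemLp (x j k) 2 volume ∧ ∀ z ∉ K, x j k z = 0)
    (hs : ∀ k, MemLp (s k) 2 volume ∧ ∀ z ∉ K, s k z = 0) (h : WS D x s) (k : Fin N) (z : E N) :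
    ∑ j, dzb j (Mo r (x j k)) z = Mo r (s k) z := by
  have hKD : K ⊆ D := (self_subset_cthickening K).trans hD
  by_cases hz : z ∈ cthickening (2 * r) K
  · have h1 := h k _ (shift_test L hN hr hD hz)
    rw [setIntegral_eq_integral_of_forall_compl_eq_zero,
      setIntegral_eq_integral_of_forall_compl_eq_zero] at h1
    · have a := fun j => (mo_d L hN hr ((hx j k).1.locallyIntegrable one_le_two) z j).2
      rw [integral_finsetSum _ fun j _ => (a j).1] at h1
      simp only [fun j => (a j).2, Finset.sum_neg_distrib, h1, neg_neg, Mo]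
      simp only [mul_comm (eta r (z - _))]
    · intro y hy
      rw [(hs k).2 y fun hc => hy (hKD hc), zero_mul]
    · intro y hy
      have hy' : y ∉ K := fun hc => hy (hKD hc)
      simp only [(hx _ _).2 y hy', zero_mul, Finset.sum_const_zero]
  · simp only [fun j => (d_zero L hN hr (hx j k).2 hz j).2, mo_zero L hN hr (hs k).2 hz,
      Finset.sum_const_zero]

/-- The three integrals only see a set that carries the data. -/
theorem restr {D K : Set (E N)} (hD : IsOpen D) (hK : K ⊆ D) (φ : E N → ℝ)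
    {x : Fin N → Fin N → E N → ℂ} {Y : Fin N → Fin N → Fin N → E N → ℂ} {s : Fin N → E N → ℂ}
    (hx : ∀ j k, ∀ z ∉ K, x j k z = 0) (hY : ∀ i j k, ∀ z ∉ K, Y i j k z = 0)
    (hs : ∀ k, ∀ z ∉ K, s k z = 0) :
    (∫ z in D, QQ φ z (fun j k => x j k z) * Real.exp (-φ z) ≤
      1 / 3 * (∫ z in D, (∑ i, ∑ j, ∑ k,
        ‖Y i j k z - w3 (fun a => dz a (cx φ) z) (fun a b => x a b z) i j k‖ ^ 2) *
          Real.exp (-φ z)) +
      2 * ∫ z in D, (∑ k, ‖s k z‖ ^ 2) * Real.exp (-φ z)) ↔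
    (∫ z in K, QQ φ z (fun j k => x j k z) * Real.exp (-φ z) ≤
      1 / 3 * (∫ z in K, (∑ i, ∑ j, ∑ k,
        ‖Y i j k z - w3 (fun a => dz a (cx φ) z) (fun a b => x a b z) i j k‖ ^ 2) *
          Real.exp (-φ z)) +
      2 * ∫ z in K, (∑ k, ‖s k z‖ ^ 2) * Real.exp (-φ z)) := by
  rw [setIntegral_eq_of_subset_of_forall_sdiff_eq_zero hD.measurableSet hK,
    setIntegral_eq_of_subset_of_forall_sdiff_eq_zero hD.measurableSet hK,
    setIntegral_eq_of_subset_of_forall_sdiff_eq_zero hD.measurableSet hK]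
  · intro z hz
    simp [hs _ z hz.2]
  · intro z hz
    simp [hY _ _ _ z hz.2, hx _ _ z hz.2, w3]
  · intro z hz
    simp [hx _ _ z hz.2, QQ, hess]

end H1wA

open H1wA in
theorem h1w (L : Lv0) (h : StmtH1) : StmtH1w := by
  intro N D K φ x Y s hN hD h0 hK hKD hφ hx hanti hY hs hW hS
  obtain ⟨δ, hδ, hδD⟩ := hK.exists_cthickening_subset_open hD hKD
  set K' := cthickening δ K with hK'
  have hc : IsCompact K' := hK.cthickening
  have hKK : K ⊆ K' := self_subset_cthickening K
  rw [restr hD hδD φ (fun j k z hz => (hx j k).2 z fun hc => hz (hKK hc))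
    (fun i j k z hz => (hY i j k).2 z fun hc => hz (hKK hc))
    (fun k z hz => (hs k).2 z fun hc => hz (hKK hc))]
  have hat : ∀ z ∈ K', ContDiffAt ℝ ∞ (cx φ) z := fun z hz =>
    contDiffAt_cx (hφ.contDiffAt (hD.mem_nhds (hδD hz)))
  have b1 : ∀ a, ContinuousOn (dz a (cx φ)) K' := fun a z hz =>
    (contDiffAt_dz a (hat z hz)).continuousAt.continuousWithinAt
  have b2 : ∀ a b, ContinuousOn (dz a (dzb b (cx φ))) K' := fun a b z hz =>
    (contDiffAt_dz a (contDiffAt_dzb b (hat z hz))).continuousAt.continuousWithinAt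
  have b3 : ContinuousOn (fun z => Real.exp (-φ z)) K' :=
    Real.continuous_exp.comp_continuousOn (hφ.continuousOn.mono hδD).neg
  have b4 : ContinuousOn (fun z => (∑ i, dz i (dzb i (cx φ)) z).re) K' :=
    Complex.continuous_re.comp_continuousOn (continuousOn_finsetSum _ fun i _ => b2 i i)
  have cx' := fun j k => mo_cp L hN K' (hx j k).1
  have cY := fun i j k => mo_cp L hN K' (hY i j k).1
  have cs := fun k => mo_cp L hN K' (hs k).1
  have t1 := (((Cp.sum le_rfl Finset.univ fun j => Cp.sum le_rfl Finset.univ fun k =>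
    (cx' j k).nsq).bmul (bd_of_cont hc b4)).sub le_rfl
    ((Cp.sum le_rfl Finset.univ fun k => (Cp.sum le_rfl Finset.univ fun a =>
      Cp.sum le_rfl Finset.univ fun b =>
        ((cx' a k).cj.bmul (bd_of_cont hc (b2 a b))).mul (cx' b k).cj.cj).re).bmul
          (bd_of_cont hc (continuousOn_const (c := (2 : ℝ)))))).mulb (bd_of_cont hc b3)
  have t2 := (Cp.sum le_rfl Finset.univ fun i => Cp.sum le_rfl Finset.univ fun j =>
    Cp.sum le_rfl Finset.univ fun k => ((cY i j k).sub one_le_two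
      ((((cx' j k).bmul (bd_of_cont hc (b1 i))).sub one_le_two
        ((cx' i k).bmul (bd_of_cont hc (b1 j)))).add one_le_two
          ((cx' i j).bmul (bd_of_cont hc (b1 k))))).nsq).mulb (bd_of_cont hc b3)
  have t3 := (Cp.sum le_rfl Finset.univ fun k => (cs k).nsq).mulb (bd_of_cont hc b3)
  refine le_of_tendsto_of_tendsto t1.tendsto
    ((t2.tendsto.const_mul (1 / 3)).add (t3.tendsto.const_mul 2)) ?_
  filter_upwards [Ioo_mem_nhdsGT (show (0 : ℝ) < δ / 4 by positivity)] with r hr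
  have hr0 : 0 < r := hr.1
  have h4 : cthickening (4 * r) K ⊆ K' := cthickening_mono (by linarith [hr.2]) K
  have h2 : cthickening (2 * r) K ⊆ K' := cthickening_mono (by linarith [hr.2]) K
  obtain ⟨ht, -, -⟩ := (L.bm1 N hN).2.2.1 r hr0
  have htest : ∀ j k, Test D (Mo r (x j k)) := fun j k => by
    have hsup : tsupport (Mo r (x j k)) ⊆ K' := closure_minimal (fun z hz => by
      by_contra hcon
      exact hz (mo_zero L hN hr0 (hx j k).2 fun hc => hcon (h2 hc))) hc.isClosed
    exact ⟨((L.yg N).2.1 (eta r) _ ht ((hx j k).1.locallyIntegrable one_le_two)).1,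
      hc.of_isClosed_subset (isClosed_tsupport _) hsup, hsup.trans hδD⟩
  have hH := h N D φ (fun j k => Mo r (x j k)) hD h0 hφ htest fun j k z => by
    simp only [Mo, hanti j k, mul_neg, integral_neg]
  have e1 : ∀ i j k z, dl φ i (Mo r (x j k)) z - dl φ j (Mo r (x i k)) z + dl φ k (Mo r (x i j)) z =
      Mo r (Y i j k) z - w3 (fun a => dz a (cx φ) z) (fun a b => Mo r (x a b) z) i j k := by
    intro i j k z
    rw [← w3_id L hN hr0 (h4.trans hδD) hx hY hW i j k z]
    simp only [dl, w3]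
    ring
  simp only [e1, ws_id L hN hr0 (h4.trans hδD) hx hs hS] at hH
  exact (restr hD hδD φ (x := fun j k => Mo r (x j k)) (Y := fun i j k => Mo r (Y i j k))
    (s := fun k => Mo r (s k))
    (fun j k z hz => mo_zero L hN hr0 (hx j k).2 fun hc => hz (h2 hc))
    (fun i j k z hz => mo_zero L hN hr0 (hY i j k).2 fun hc => hz (h2 hc))
    (fun k z hz => mo_zero L hN hr0 (hs k).2 fun hc => hz (h2 hc))).1 hH

end Pool.Agent.MP_fcd29e_an.H99
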