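import Mathlib

/-!
Second-order majorants along complex discs.
-/

set_option autoImplicit false

open Complex Metric Set Filter
open scoped Topology

namespace Pool.Agent.MP_fcd29e_an.H99.Hart

variable {E : Type*} [NormedAddCommGroup E] [NormedSpace ℝ E]

lemma tay2 {f : E → ℝ} {p : E} (hf : ContDiffAt ℝ 2 f p) {η : ℝ} (hη : 0 < η) :
    ∃ δ > 0, ∀ v : E, ‖v‖ ≤ δ →
      f (p + v) ≤ f p + fderiv ℝ f p v + fderiv ℝ (fderiv ℝ f) p v v / 2 + η * ‖v‖ ^ 2 := by
  have hD : DifferentiableAt ℝ (fderiv ℝ f) p :=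
    (hf.fderiv_right (m := 1) (by norm_num)).differentiableAt one_ne_zero
  have h1 := Asymptotics.isLittleO_iff.1 hD.hasFDerivAt.isLittleO hη
  have h2 : ∀ᶠ y in 𝓝 p, DifferentiableAt ℝ f y :=
    (hf.eventually (by simp)).mono fun y hy => hy.differentiableAt (by norm_num)
  obtain ⟨δ, hδ, hb⟩ := nhds_basis_closedBall.eventually_iff.1 (h1.and h2)
  refine ⟨δ, hδ, fun v hv => ?_⟩
  set D := fderiv ℝ f with hDd
  set D2 := fderiv ℝ D p with hD2
  have hm : ∀ t ∈ Icc (0 : ℝ) 1, p + t • v ∈ closedBall p δ := fun t ht => by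
    rw [mem_closedBall, dist_eq_norm, add_sub_cancel_left, norm_smul, Real.norm_of_nonneg ht.1]
    nlinarith [ht.1, ht.2, norm_nonneg v]
  have key := norm_image_sub_le_of_norm_deriv_le_segment_01'
    (f := fun t : ℝ => f (p + t • v) - t * D p v - t ^ 2 * (D2 v v / 2))
    (f' := fun t => (D (p + t • v) - D p - D2 (t • v)) v) (C := η * ‖v‖ ^ 2)
    (fun t ht => by
      have a1 : HasDerivAt (fun t : ℝ => p + t • v) v t := by
        simpa using ((hasDerivAt_id t).smul_const v).const_add p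
      have a2 := (hb (hm t ht)).2.hasFDerivAt.comp_hasDerivAt t a1
      have a3 := (a2.sub ((hasDerivAt_id t).mul_const (D p v))).sub
        ((hasDerivAt_pow 2 t).mul_const (D2 v v / 2))
      refine (a3.congr_deriv ?_).hasDerivWithinAt
      simp [hDd]
      ring)
    (fun t ht => by
      have a1 := (hb (hm t (Ico_subset_Icc_self ht))).1
      rw [add_sub_cancel_left] at a1
      refine (ContinuousLinearMap.le_opNorm _ _).trans ?_
      have a2 : ‖t • v‖ ≤ ‖v‖ := by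
        rw [norm_smul, Real.norm_of_nonneg ht.1]
        nlinarith [ht.1, ht.2, norm_nonneg v]
      calc _ ≤ η * ‖v‖ * ‖v‖ := mul_le_mul_of_nonneg_right
            (a1.trans (mul_le_mul_of_nonneg_left a2 hη.le)) (norm_nonneg _)
        _ = _ := by ring)
  simp only [one_smul, one_mul, one_pow, zero_smul, add_zero, zero_mul, sub_zero, ne_eq,
    OfNat.ofNat_ne_zero, not_false_eq_true, zero_pow, Real.norm_eq_abs] at key
  linarith [(abs_le.1 key).2]

variable {V : Type*} [NormedAddCommGroup V] [NormedSpace ℂ V]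

/-- The Laplacian of `f` along the complex line through `p` in direction `X`. -/
noncomputable def Lap (f : V → ℝ) (p X : V) : ℝ :=
  fderiv ℝ (fderiv ℝ f) p X X + fderiv ℝ (fderiv ℝ f) p (I • X) (I • X)

lemma tay_disc {f : V → ℝ} {p : V} (hf : ContDiffAt ℝ 2 f p) (X : V) {Λ : ℝ}
    (hΛ : Lap f p X ≤ 4 * Λ * ‖X‖ ^ 2) :
    ∃ r > 0, ∃ g : ℂ → ℂ, Differentiable ℂ g ∧ (g 0).re = f p ∧ ∀ ζ : ℂ, ‖ζ‖ ≤ r →
      f (p + ζ • X) ≤ (g ζ).re + (Λ + 1) * (‖ζ‖ ^ 2 * ‖X‖ ^ 2) := by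
  obtain ⟨δ, hδ, h⟩ := tay2 hf one_pos
  set D := fderiv ℝ f p
  set B := fderiv ℝ (fderiv ℝ f) p with hB
  refine ⟨δ / (‖X‖ + 1), by positivity, fun ζ => f p + ((D X : ℝ) - I * (D (I • X) : ℝ)) * ζ +
    ((((B X X - B (I • X) (I • X)) / 4 : ℝ)) - I * ((B X (I • X) + B (I • X) X) / 4 : ℝ)) * ζ ^ 2,
    by fun_prop, by simp, fun ζ hζ => ?_⟩
  have hn : ‖ζ • X‖ ≤ δ := by
    rw [le_div_iff₀ (by positivity)] at hζ
    rw [norm_smul]
    nlinarith [norm_nonneg ζ]
  refine (h _ hn).trans ?_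
  have e : ζ • X = ζ.re • X + ζ.im • (I • X) := by
    conv_lhs => rw [← re_add_im ζ]
    rw [add_smul, mul_smul, Complex.coe_smul, Complex.coe_smul]
  have e2 : ‖ζ‖ ^ 2 = ζ.re ^ 2 + ζ.im ^ 2 := by
    rw [Complex.sq_norm, normSq_apply]; ring
  rw [norm_smul, mul_pow]
  rw [Lap, ← hB] at hΛ
  have e3 : D (ζ • X) = ζ.re * D X + ζ.im * D (I • X) := by rw [e]; simp
  have e4 : B (ζ • X) (ζ • X) = ζ.re ^ 2 * B X X + ζ.re * ζ.im * (B X (I • X) + B (I • X) X) +
      ζ.im ^ 2 * B (I • X) (I • X) := by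
    rw [e]
    simp only [map_add, map_smul, ContinuousLinearMap.add_apply, ContinuousLinearMap.smul_apply,
      smul_eq_mul]
    ring
  rw [e3, e4]
  simp only [add_re, mul_re, sub_re, ofReal_re, I_re, I_im, ofReal_im, sub_im, mul_im, sq]
  have := mul_le_mul_of_nonneg_left hΛ (sq_nonneg ‖ζ‖)
  rw [sq, sq] at e2
  rw [sq] at this
  rw [← sq ζ.re, ← sq ζ.im, ← sq ‖X‖] at *
  rw [e2] at this ⊢
  nlinarith [this]

lemma lap_le (f : V → ℝ) (p X : V) : Lap f p X ≤ 2 * ‖fderiv ℝ (fderiv ℝ f) p‖ * ‖X‖ ^ 2 := by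
  have h : ∀ w : V, fderiv ℝ (fderiv ℝ f) p w w ≤ ‖fderiv ℝ (fderiv ℝ f) p‖ * ‖w‖ ^ 2 := fun w => by
    refine (le_abs_self _).trans (((fderiv ℝ (fderiv ℝ f) p).le_opNorm₂ w w).trans (le_of_eq ?_))
    ring
  have h2 := h (I • X)
  rw [norm_smul, norm_I, one_mul] at h2
  rw [Lap]
  linarith [h X]

/-- The radial part of the comparison function. -/
noncomputable def q0 (s : ℝ) : ℝ := Real.log (1 + s) / 2 - 3 / 4 * Real.log s

lemma q0_dec {s h : ℝ} (hs : 0 < s) (h0 : 0 ≤ h) (hh : h ≤ s) : q0 (s + h) ≤ q0 s - h / (8 * s) := by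
  have h1 : Real.log (1 + (s + h)) - Real.log (1 + s) ≤ Real.log (s + h) - Real.log s := by
    rw [← Real.log_div (by positivity) (by positivity), ← Real.log_div (by positivity) hs.ne']
    refine Real.log_le_log (by positivity) ?_
    rw [div_le_div_iff₀ (by positivity) hs]
    nlinarith
  have h2 : h / (2 * s) ≤ Real.log (s + h) - Real.log s := by
    rw [← Real.log_div (by positivity) hs.ne']
    refine le_trans ?_ (Real.one_sub_inv_le_log_of_pos (by positivity))
    rw [inv_div, div_le_iff₀ (by positivity)]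
    have : (1 - s / (s + h)) * (2 * s) = h * (2 * s / (s + h)) := by field_simp; ring
    rw [this]
    refine le_mul_of_one_le_right h0 ?_
    rw [le_div_iff₀ (by positivity)]; linarith
  have e : h / (8 * s) = h / (2 * s) / 4 := by field_simp; ring
  rw [q0, q0, e]
  linarith

end Pool.Agent.MP_fcd29e_an.H99.Hart
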