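import Pool.Agent.MP_fcd29e_an.H81.Main
import Pool.Agent.MP_fcd29e_an.H99.HTay

/-!
The barrier on the concave side.
-/

set_option autoImplicit false

open Pool.Agent.MP_fcd29e_an.H81 Complex Set Filter Topology Metric
open scoped ContDiff ComplexConjugate

namespace Pool.Agent.MP_fcd29e_an.H99.Hart

variable {N : ℕ}

lemma lap_eq {f : E N → ℝ} {p : E N} (hf : ContDiffAt ℝ ∞ f p) (X : E N) :
    Lap f p X = 4 * (hess (cx f) p fun j => X j).re := by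
  have hD : DifferentiableAt ℝ (fderiv ℝ f) p :=
    (hf.fderiv_right (m := ∞) le_rfl).differentiableAt (by simp)
  have hev : ∀ᶠ z in 𝓝 p, DifferentiableAt ℝ f z :=
    (hf.of_le (m := 1) (by exact_mod_cast le_top)).eventually (by simp) |>.mono
      fun z hz => hz.differentiableAt one_ne_zero
  have h1 : ∀ w : E N, fderiv ℝ (fun z => fderiv ℝ (cx f) z w) p w =
      (fderiv ℝ (fderiv ℝ f) p w w : ℝ) := fun w => by
    have e : (fun z => fderiv ℝ (cx f) z w) =ᶠ[𝓝 p] fun z => ofRealCLM (fderiv ℝ f z w) :=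
      hev.mono fun z hz => congrArg (fun A : E N →L[ℝ] ℂ => A w)
        (ofRealCLM.hasFDerivAt.comp z hz.hasFDerivAt).fderiv
    have a := (ofRealCLM.hasFDerivAt.comp p
      (hD.hasFDerivAt.clm_apply (hasFDerivAt_const w p))).fderiv
    rw [e.fderiv_eq]
    refine (congrArg (fun A : E N →L[ℝ] ℂ => A w) a).trans ?_
    simp
  have h2 := H73.lap (contDiffAt_cx hf) X
  rw [h1, h1] at h2
  have h3 := congrArg Complex.re h2
  simpa [Lap] using h3

lemma unit_mem {z : E N} (hz : ‖z‖ = 1) : z ∈ Sh N := by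
  simp only [Sh, mem_setOf_eq, hz]; norm_num

lemma nrm {z : E N} (hz : z ≠ 0) : ((‖z‖⁻¹ : ℝ) : ℂ) ≠ 0 ∧ ‖((‖z‖⁻¹ : ℝ) : ℂ) • z‖ = 1 := by
  have h := norm_pos_iff.2 hz
  refine ⟨by exact_mod_cast (inv_pos.2 h).ne', ?_⟩
  rw [norm_smul, Complex.norm_real, Real.norm_of_nonneg (inv_pos.2 h).le, inv_mul_cancel₀ h.ne']

lemma compact_of {ρ : E N → ℝ} (h : Dom ρ) {K : Set (E N)} (hK : IsCompact K) (h0 : (0 : E N) ∉ K)
    {T : Set ℝ} (hT : IsClosed T) : IsCompact (K ∩ ρ ⁻¹' T) :=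
  hK.of_isClosed_subset ((h.smooth.continuousOn.mono fun z hz => by
    rintro rfl; exact h0 hz).preimage_isClosed_of_isClosed hK.isClosed hT) inter_subset_left

lemma exists_perp (hN : 2 ≤ N) (p : E N) : ∃ X : E N, X ≠ 0 ∧ inner ℂ p X = 0 := by
  have : Fact (Module.finrank ℂ (E N) = (N - 1) + 1) := ⟨by simp; omega⟩
  rcases eq_or_ne p 0 with rfl | hp
  · exact ⟨ee ⟨0, by omega⟩, by simp [ee], by simp⟩
  have h1 := Submodule.finrank_orthogonal_span_singleton (𝕜 := ℂ) (n := N - 1) hp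
  have : Nontrivial (ℂ ∙ p)ᗮ := Module.nontrivial_of_finrank_pos (R := ℂ) (by omega)
  obtain ⟨X, hX⟩ := exists_ne (0 : (ℂ ∙ p)ᗮ)
  exact ⟨X, fun e => hX (Subtype.ext e), Submodule.mem_orthogonal_singleton_iff_inner_right.1 X.2⟩

/-- The computation on the collar. -/
lemma trH_bar {ρ φ : E N → ℝ} (h : Dom ρ) {z : E N} (hz : z ∈ Reg ρ) (h0 : 0 < ρ z)
    (hφ : ContDiffAt ℝ ∞ φ z) (t η : ℝ) :
    trH ρ (fun y => Real.exp (η * (-1 * Real.log (ρ y) + -t * φ y))) z =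
      η * Real.exp (η * (-1 * Real.log (ρ z) + -t * φ z)) *
        (-((ρ z)⁻¹ * trH ρ ρ z) - t * trH ρ φ z +
          η * t ^ 2 * ∑ c, ‖Lf (lc ρ c) (cx φ) z‖ ^ 2) := by
  obtain ⟨-, -, -, hP, hT, -⟩ := (lv0.pf N).2.2.2 ρ h
  have hρ : ContDiffAt ℝ ∞ ρ z := h.smooth.contDiffAt (isOpen_compl_singleton.mem_nhds hz.1)
  have hlog : ContDiffAt ℝ ∞ Real.log (ρ z) := Real.contDiffAt_log.2 h0.ne'
  have hl : ContDiffAt ℝ ∞ (fun y => Real.log (ρ y)) z := hlog.comp z hρ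
  have hb : ContDiffAt ℝ ∞ (fun y => -1 * Real.log (ρ y) + -t * φ y) z :=
    (contDiffAt_const.mul hl).add (contDiffAt_const.mul hφ)
  have hL : ∀ c, Lf (lc ρ c) (cx ρ) z = 0 := fun c => by
    rw [← ((hP z hz).2.2.2.2.2.2.1 c).1]
    exact Finset.sum_congr rfl fun j _ => mul_comm _ _
  have e1 := (hT z hz ρ hρ).2.2.2.2 Real.log hlog
  simp only [hL, norm_zero, ne_eq, OfNat.ofNat_ne_zero, not_false_eq_true, zero_pow,
    Finset.sum_const_zero, mul_zero, add_zero, Real.deriv_log] at e1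
  have e2 := (hT z hz _ hl).2.2.2.1 φ hφ (-1) (-t)
  have hd : ∀ s, HasDerivAt (fun s => Real.exp (η * s)) (η * Real.exp (η * s)) s := fun s => by
    simpa [mul_comm] using ((hasDerivAt_id s).const_mul η).exp
  have d1 : deriv (fun s => Real.exp (η * s)) = fun s => η * Real.exp (η * s) :=
    funext fun s => (hd s).deriv
  have e3 := (hT z hz _ hb).2.2.2.2 (fun s => Real.exp (η * s)) (by fun_prop)
  rw [d1, ((hd _).const_mul η).deriv, e2, e1] at e3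
  have e4 : ∀ c, Lf (lc ρ c) (cx fun y => -1 * Real.log (ρ y) + -t * φ y) z =
      -t * Lf (lc ρ c) (cx φ) z := fun c => by
    have a : (cx fun y => -1 * Real.log (ρ y) + -t * φ y) = fun y =>
        -1 * cx (fun y => Real.log (ρ y)) y + (-t : ℂ) * cx φ y := by
      funext y; simp [cx]
    have a1 := ContDiffAt.da (contDiffAt_cx hl)
    have a2 := ContDiffAt.da (contDiffAt_cx hφ)
    have a3 : ∀ j, dz j (cx fun y => -1 * Real.log (ρ y) + -t * φ y) z =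
        -1 * (((ρ z)⁻¹ : ℝ) * dz j (cx ρ) z) + -t * dz j (cx φ) z := fun j => by
      rw [a, dz_add j (a1.const_mul _) (a2.const_mul _), dz_const_mul j _ a1, dz_const_mul j _ a2,
        dz_comp_real j (hρ.differentiableAt (by simp)) (Real.hasDerivAt_log h0.ne')]
    have a4 := hL c
    simp only [Lf] at a4 ⊢
    rw [Finset.sum_congr rfl fun j _ => by rw [a3 j], Finset.mul_sum,
      ← add_zero (∑ j, -(t : ℂ) * _), ← mul_zero (-(((ρ z)⁻¹ : ℝ) : ℂ)), ← a4, Finset.mul_sum,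
      ← Finset.sum_add_distrib]
    exact Finset.sum_congr rfl fun j _ => by ring
  simp only [e4, norm_mul, norm_neg, Complex.norm_real, Real.norm_eq_abs, mul_pow, sq_abs,
    ← Finset.mul_sum] at e3
  rw [e3]
  ring

theorem barrier (hN : 4 ≤ N) {ρ : E N → ℝ} (h : Dom ρ) : ∃ (B : E N → ℝ) (C : ℝ),
    (∀ z ∈ Op ρ, ContDiffAt ℝ ∞ B z) ∧ (∀ c : ℂ, c ≠ 0 → ∀ z, B (c • z) = B z) ∧ (∀ z, 0 ≤ B z) ∧
    (∀ ε > 0, ∀ T : ℝ, ∃ τ > 0, ∀ z ∈ Op ρ, ρ z < τ → T ≤ Real.log (ρ z) + ε * B z) ∧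
    ∀ p ∈ Op ρ, ‖p‖ = 1 → ∃ X : E N, X ≠ 0 ∧ inner ℂ p X = 0 ∧ Lap B p X ≤ 4 * C * ‖X‖ ^ 2 := by
  obtain ⟨φ, hφ⟩ := allD N ρ hN h
  obtain ⟨r₀, hr₀, -, c₀, hc₀, C, hC⟩ := (lv0.c1 N ρ h).2.2.2.2.2.2.2.2.2.2.1 φ hφ
  obtain ⟨hRo, hRc, -, hP, hT, -⟩ := (lv0.pf N).2.2.2 ρ h
  obtain ⟨-, hcs, hcut, -⟩ := allLOG
  have hρs : ∀ z : E N, z ≠ 0 → ContDiffAt ℝ ∞ ρ z := fun z hz =>
    h.smooth.contDiffAt (isOpen_compl_singleton.mem_nhds hz)
  have hφs : ∀ z ∈ Reg ρ, ContDiffAt ℝ ∞ φ z := fun z hz => hφ.smooth.contDiffAt (hRo.mem_nhds hz)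
  have hs0 : (0 : E N) ∉ sphere (0 : E N) 1 := by simp
  have hK0 := compact_of h (isCompact_sphere (0 : E N) 1) hs0 (isClosed_Icc (a := 0) (b := r₀))
  have hK0R : ∀ z ∈ sphere (0 : E N) 1 ∩ ρ ⁻¹' Icc 0 r₀, z ∈ Reg ρ := fun z hz =>
    (hC z (unit_mem (by simpa using hz.1)) hz.2.1 hz.2.2).1
  obtain ⟨C₂, hC₂⟩ := hK0.exists_bound_of_continuousOn
    (f := fun z => ∑ c, ‖Lf (lc ρ c) (cx φ) z‖ ^ 2) fun z hz => by
      refine ContinuousAt.continuousWithinAt (tendsto_finset_sum _ fun c _ => ?_)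
      refine ContinuousAt.pow (ContinuousAt.norm (tendsto_finset_sum _ fun j _ => ?_)) 2
      exact ((hP z (hK0R z hz)).2.2.2.2.1 c j).continuousAt.mul
        (contDiffAt_dz j (contDiffAt_cx (hφs z (hK0R z hz)))).continuousAt
  obtain ⟨C₃, hC₃⟩ := hK0.exists_bound_of_continuousOn (f := φ) fun z hz =>
    (hφs z (hK0R z hz)).continuousAt.continuousWithinAt
  set t : ℝ := (|C| + 1) / c₀ with ht
  have ht0 : 0 < t := by positivity
  set η : ℝ := 1 / (2 * (t ^ 2 * |C₂| + 1)) with hη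
  have hη0 : 0 < η := by positivity
  set B₀ : E N → ℝ := fun y => Real.exp (η * (-1 * Real.log (ρ y) + -t * φ y)) with hB₀
  set B : E N → ℝ := fun y => (1 - cut (3 / r₀ * ρ y)) * B₀ y with hB
  have hcol : ∀ z ∈ Op ρ, ρ z ≤ r₀ → z ∈ Reg ρ ∧ φ z ≤ C₃ := fun z hz hr => by
    obtain ⟨a1, a2⟩ := nrm hz.1
    have a3 : ((‖z‖⁻¹ : ℝ) : ℂ) • z ∈ sphere (0 : E N) 1 ∩ ρ ⁻¹' Icc 0 r₀ :=
      ⟨by simpa using a2, by rw [mem_preimage, h.inv _ a1]; exact ⟨hz.2.le, hr⟩⟩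
    have a4 := hRc.2 _ (inv_ne_zero a1) _ (hK0R _ a3)
    rw [inv_smul_smul₀ a1] at a4
    have a5 := hC₃ _ a3
    rw [hφ.inv _ a1] at a5
    exact ⟨a4, (le_abs_self _).trans a5⟩
  have hB₀s : ∀ z ∈ Op ρ, ρ z ≤ r₀ → ContDiffAt ℝ ∞ B₀ z := fun z hz hr =>
    (contDiffAt_const.mul ((contDiffAt_const.mul ((hρs z hz.1).log hz.2.ne')).add
      (contDiffAt_const.mul (hφs z (hcol z hz hr).1)))).exp
  have hBs : ∀ z ∈ Op ρ, ContDiffAt ℝ ∞ B z := fun z hz => by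
    rcases le_or_gt (ρ z) r₀ with hr | hr
    · exact (contDiffAt_const.sub (hcs.contDiffAt.comp z
        (contDiffAt_const.mul (hρs z hz.1)))).mul (hB₀s z hz hr)
    · refine (contDiffAt_const (c := (0 : ℝ))).congr_of_eventuallyEq ?_
      filter_upwards [(hρs z hz.1).continuousAt.eventually (lt_mem_nhds hr)] with y hy
      have : 2 ≤ 3 / r₀ * ρ y := by
        rw [div_mul_eq_mul_div, le_div_iff₀ hr₀]; linarith
      simp [hB, (hcut _).2.2.2.1 this]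
  have hBe : ∀ y, ρ y ≤ r₀ / 3 → B y = B₀ y := fun y hy => by
    have : 3 / r₀ * ρ y ≤ 1 := by
      rw [div_mul_eq_mul_div, div_le_iff₀ hr₀]; linarith
    simp [hB, (hcut _).2.2.1 this]
  have hK1 := compact_of h (isCompact_sphere (0 : E N) 1) hs0 (isClosed_Ici (a := r₀ / 4))
  obtain ⟨C₄, hC₄⟩ := hK1.exists_bound_of_continuousOn (f := fderiv ℝ (fderiv ℝ B)) fun z hz => by
    have hz' : z ∈ Op ρ := ⟨by rintro rfl; exact hs0 hz.1, lt_of_lt_of_le (by positivity) hz.2⟩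
    exact (((hBs z hz').fderiv_right (m := ∞) le_rfl).fderiv_right (m := ∞)
      le_rfl).continuousAt.continuousWithinAt
  refine ⟨B, |C₄|, hBs, fun c hc z => by simp only [hB, hB₀, h.inv c hc, hφ.inv c hc],
    fun z => mul_nonneg (sub_nonneg.2 (hcut _).2.1) (Real.exp_pos _).le, fun ε hε T => ?_,
    fun p hp h1 => ?_⟩
  · set κ : ℝ := ε * Real.exp (-(η * t * C₃)) * η ^ 2 / 2 with hκ
    have hκ0 : 0 < κ := by positivity
    refine ⟨min (r₀ / 3) (Real.exp (-max (2 / κ) T)), by positivity, fun z hz hτ => ?_⟩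
    have a1 := (lt_min_iff.1 hτ).1
    have a2 := (Real.log_lt_iff_lt_exp hz.2).2 (lt_min_iff.1 hτ).2
    set u := -Real.log (ρ z) with hu
    have a3 : 2 / κ ≤ u := by linarith [le_max_left (2 / κ) T]
    have a4 : T ≤ u := by linarith [le_max_right (2 / κ) T]
    have a5 : 0 < u := lt_of_lt_of_le (by positivity) a3
    have a6 : Real.exp (-(η * t * C₃)) * ((η * u) ^ 2 / 2) ≤ B z := by
      rw [hBe z a1.le]
      have b1 := Real.quadratic_le_exp_of_nonneg (mul_pos hη0 a5).le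
      refine (mul_le_mul_of_nonneg_left (show (η * u) ^ 2 / 2 ≤ Real.exp (η * u) by
        nlinarith [mul_pos hη0 a5]) (Real.exp_pos _).le).trans ?_
      rw [← Real.exp_add]
      refine Real.exp_le_exp.2 ?_
      have := mul_le_mul_of_nonneg_left (hcol z hz (by linarith)).2 (mul_pos hη0 ht0).le
      rw [hu]; linarith
    have a7 : κ * u ^ 2 ≤ ε * B z := by
      refine le_trans (le_of_eq ?_) (mul_le_mul_of_nonneg_left a6 hε.le)
      rw [hκ]; ring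
    rw [div_le_iff₀ hκ0] at a3
    nlinarith
  rcases le_or_gt (r₀ / 4) (ρ p) with hr | hr
  · obtain ⟨X, hX, hXp⟩ := exists_perp (by omega) p
    refine ⟨X, hX, hXp, (lap_le B p X).trans (mul_le_mul_of_nonneg_right ?_ (sq_nonneg _))⟩
    have := (hC₄ p ⟨by simpa using h1, hr⟩).trans (le_abs_self _)
    linarith [abs_nonneg C₄]
  have hr' : ρ p ≤ r₀ := by linarith
  obtain ⟨hR, c1, c2⟩ := hC p (unit_mem h1) hp.2.le hr'
  have hneg : trH ρ B₀ p < 0 := by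
    rw [hB₀, trH_bar h hR hp.2 (hφs p hR)]
    refine mul_neg_of_pos_of_neg (by positivity) ?_
    have b1 : -((ρ p)⁻¹ * trH ρ ρ p) ≤ |C| := by
      have := mul_le_mul_of_nonneg_left c2 (inv_pos.2 hp.2).le
      have e : (ρ p)⁻¹ * -(C * ρ p) = -C := by field_simp [hp.2.ne']
      linarith [le_abs_self C]
    have b2 : |C| + 1 ≤ t * trH ρ φ p := by
      refine le_trans (le_of_eq ?_) (mul_le_mul_of_nonneg_left c1 ht0.le)
      rw [ht]; field_simp
    have b3 := (le_abs_self _).trans ((hC₂ p ⟨by simpa using h1, hp.2.le, hr'⟩).trans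
      (le_abs_self _))
    have b4 : η * t ^ 2 * |C₂| ≤ 1 / 2 := by
      rw [hη, mul_assoc, div_mul_eq_mul_div, div_le_iff₀ (by positivity)]; linarith
    have b5 := mul_le_mul_of_nonneg_left b3 (show 0 ≤ η * t ^ 2 by positivity)
    linarith
  rw [(hT p hR B₀ (hB₀s p hp hr')).2.1] at hneg
  obtain ⟨c, hc⟩ : ∃ c, (hess (cx B₀) p fun j => PP ρ p j c).re < 0 := by
    by_contra hn
    push Not at hn
    exact absurd (Finset.sum_nonneg fun c _ => hn c) (not_le.2 hneg)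
  have hev : B =ᶠ[𝓝 p] B₀ := ((hρs p hp.1).continuousAt.eventually
    (gt_mem_nhds (show ρ p < r₀ / 3 by linarith))).mono fun y hy => hBe y hy.le
  refine ⟨WithLp.toLp 2 fun j => PP ρ p j c, fun e => ?_, ?_, ?_⟩
  · have : ∀ j, PP ρ p j c = 0 := fun j => congrArg (fun v : E N => v j) e
    simp [hess, this] at hc
  · rw [← ((hP p hR).2.2.2.2.2.2.1 c).2.1]
    simp [PiLp.inner_apply, mul_comm]
  · have e : Lap B p (WithLp.toLp 2 fun j => PP ρ p j c) =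
        Lap B₀ p (WithLp.toLp 2 fun j => PP ρ p j c) := by
      simp only [Lap, hev.fderiv.fderiv_eq]
    rw [e, lap_eq (hB₀s p hp hr')]
    have : (0 : ℝ) ≤ 4 * |C₄| * ‖(WithLp.toLp 2 fun j => PP ρ p j c : E N)‖ ^ 2 := by positivity
    linarith

end Pool.Agent.MP_fcd29e_an.H99.Hart
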