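import Pool.Agent.MP_fcd29e_an.H99.HOsg

/-!
The locally uniform radius of the Taylor series: disc lemma, minimum principle, extension.
-/

set_option autoImplicit false

open Complex Metric Set Filter
open scoped Real Topology Nat NNReal

namespace Pool.Agent.MP_fcd29e_an.H99.Hart

variable {E : Type*} [NormedAddCommGroup E] [NormedSpace ℂ E]

/-- The Taylor coefficients near `z` are bounded at radius `s`. -/
def GG (F : E → ℂ) (z : E) (s : ℝ) : Prop :=
  ∃ M : ℝ, ∀ᶠ y in 𝓝 z, ∀ k : ℕ, ‖iteratedFDeriv ℂ k F y‖ * s ^ k ≤ M * k !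

lemma GG.mono {F : E → ℂ} {z : E} {s t : ℝ} (h : GG F z s) (ht : 0 ≤ t) (hts : t ≤ s) :
    GG F z t := by
  obtain ⟨M, hM⟩ := h
  exact ⟨M, hM.mono fun y hy k => (mul_le_mul_of_nonneg_left (pow_le_pow_left₀ ht hts k)
    (norm_nonneg _)).trans (hy k)⟩

lemma GG.ev {F : E → ℂ} {z : E} {s : ℝ} (h : GG F z s) : ∀ᶠ y in 𝓝 z, GG F y s := by
  obtain ⟨M, hM⟩ := h
  exact hM.eventually_nhds.mono fun y hy => ⟨M, hy⟩

variable [FiniteDimensional ℂ E]

lemma gg_ball {U : Set E} (hU : IsOpen U) {F : E → ℂ} (hF : DifferentiableOn ℂ F U) {z : E}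
    {δ : ℝ} (hδ : 0 < δ) (hz : closedBall z (2 * δ) ⊆ U) : GG F z (δ / 3) := by
  have : ProperSpace E := FiniteDimensional.proper ℂ E
  obtain ⟨M, hM⟩ := (isCompact_closedBall z (2 * δ)).exists_bound_of_continuousOn
    (hF.continuousOn.mono hz)
  exact ⟨M, mem_of_superset (closedBall_mem_nhds z hδ) fun y hy k => cauchy_fact hU hF hδ hz hM k hy⟩

lemma gg_disc {U : Set E} (hU : IsOpen U) {F : E → ℂ} (hF : DifferentiableOn ℂ F U) {p X : E}
    {r a θ : ℝ} (hr : 0 < r) (ha : 0 < a) (hθ0 : 0 < θ) (hθ : θ < 1) {g : ℂ → ℂ}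
    (hg : Differentiable ℂ g) (hd : ∀ ζ ∈ closedBall (0 : ℂ) r, p + ζ • X ∈ U)
    (hs : ∀ ζ ∈ sphere (0 : ℂ) r, GG F (p + ζ • X) (a * Real.exp (-(g ζ).re))) :
    GG F p (θ * a * Real.exp (-(g 0).re)) := by
  have h1 : ∀ᶠ y in 𝓝 p, ∀ ζ ∈ closedBall (0 : ℂ) r, y + ζ • X ∈ U := by
    refine (isCompact_closedBall (0 : ℂ) r).eventually_forall_of_forall_eventually fun ζ hζ => ?_
    have hc : Continuous fun q : E × ℂ => q.1 + q.2 • X := by fun_prop
    exact hc.continuousAt.eventually (hU.mem_nhds (hd ζ hζ))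
  have h2 : ∀ᶠ q : ℝ × E in 𝓝 (0, p), ∀ ζ ∈ sphere (0 : ℂ) r, 0 < q.1 → ∀ k : ℕ,
      q.1 * (‖iteratedFDeriv ℂ k F (q.2 + ζ • X)‖ * (θ * a * Real.exp (-(g ζ).re)) ^ k) ≤ k ! := by
    refine (isCompact_sphere (0 : ℂ) r).eventually_forall_of_forall_eventually fun ζ hζ => ?_
    obtain ⟨M, hM⟩ := hs ζ hζ
    have hc : Continuous fun q : (ℝ × E) × ℂ => q.1.2 + q.2 • X := by fun_prop
    have e1 := (hc.continuousAt (x := ((0, p), ζ))).eventually hM
    have hgc := hg.continuous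
    have hc2 : Continuous fun q : (ℝ × E) × ℂ => θ * a * Real.exp (-(g q.2).re) := by fun_prop
    have hlt : θ * a * Real.exp (-(g ζ).re) < a * Real.exp (-(g ζ).re) := by
      have := Real.exp_pos (-(g ζ).re)
      nlinarith [mul_pos ha this]
    have e2 := (hc2.continuousAt (x := ((0, p), ζ))).eventually (gt_mem_nhds hlt)
    have hc3 : Continuous fun q : (ℝ × E) × ℂ => q.1.1 * M := by fun_prop
    have e3 := (hc3.continuousAt (x := ((0, p), ζ))).eventually
      (gt_mem_nhds (show (0 : ℝ) * M < 1 by simp))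
    filter_upwards [e1, e2, e3] with q q1 q2 q3 hq k
    have hf : (0 : ℝ) < k ! := by exact_mod_cast k.factorial_pos
    have hp : 0 ≤ θ * a * Real.exp (-(g q.2).re) := by positivity
    have := (mul_le_mul_of_nonneg_left (pow_le_pow_left₀ hp q2.le k) (norm_nonneg _)).trans (q1 k)
    calc _ ≤ q.1.1 * (M * k !) := mul_le_mul_of_nonneg_left this hq.le
      _ = (q.1.1 * M) * k ! := by ring
      _ ≤ 1 * k ! := mul_le_mul_of_nonneg_right q3.le hf.le
      _ = k ! := one_mul _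
  obtain ⟨μ, hμ, hμ0⟩ := ((h2.curry_nhds.filter_mono nhdsWithin_le_nhds).and
    (self_mem_nhdsWithin (s := Ioi (0 : ℝ)))).exists
  have hμ0 : 0 < μ := hμ0
  refine ⟨μ⁻¹, ?_⟩
  filter_upwards [h1, hμ] with y y1 y2 k
  set h : ℂ → _ := fun ζ => (((θ * a : ℝ) : ℂ) * exp (-g ζ)) ^ k • iteratedFDeriv ℂ k F (y + ζ • X)
    with hh
  have hn : ∀ ζ, ‖h ζ‖ =
      ‖iteratedFDeriv ℂ k F (y + ζ • X)‖ * (θ * a * Real.exp (-(g ζ).re)) ^ k := fun ζ => by
    rw [hh]
    simp only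
    rw [norm_smul, norm_pow, norm_mul, Complex.norm_exp, Complex.norm_real,
      Real.norm_of_nonneg (by positivity), neg_re, mul_comm]
  have hdc : DiffContOnCl ℂ h (ball 0 r) := by
    refine DifferentiableOn.diffContOnCl fun t ht => DifferentiableAt.differentiableWithinAt ?_
    have := (line_deriv (diff_iter hU hF k
      (y1 t (closure_ball_subset_closedBall ht)))).differentiableAt
    exact ((((hg t).neg.cexp).const_mul _).pow k).smul this
  have hb := Complex.norm_le_of_forall_mem_frontier_norm_le isBounded_ball hdc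
    (C := μ⁻¹ * k !) (fun ζ hζ => by
      rw [frontier_ball _ hr.ne'] at hζ
      rw [hn, ← div_eq_inv_mul, le_div_iff₀ hμ0, mul_comm]
      exact y2 ζ hζ hμ0 k) (z := 0) (subset_closure (mem_ball_self hr))
  rw [hn] at hb
  simpa using hb

/-- The minimum principle. -/
lemma gg_all {U : Set E} (hU : IsOpen U) {F : E → ℂ} (hF : DifferentiableOn ℂ F U) {Q : E → ℝ}
    (hQ : ContinuousOn Q U)
    (hK : ∀ A : ℝ, 0 < A → ∃ K ⊆ U, IsCompact K ∧ ∀ z ∈ U, z ∉ K → GG F z (A * Real.exp (-Q z)))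
    (hT : ∀ p ∈ U, ∃ (X : E) (r : ℝ) (g : ℂ → ℂ), 0 < r ∧ Differentiable ℂ g ∧
      (∀ ζ ∈ closedBall (0 : ℂ) r, p + ζ • X ∈ U) ∧
      (∀ ζ ∈ sphere (0 : ℂ) r, Q (p + ζ • X) ≤ (g ζ).re) ∧ (g 0).re < Q p) :
    ∀ z ∈ U, ∀ s, 0 < s → GG F z s := by
  by_contra hcon
  push Not at hcon
  obtain ⟨z₀, hz₀, s₀, hs₀, hn₀⟩ := hcon
  set S : Set ℝ := {A | 0 < A ∧ ∃ z ∈ U, ¬ GG F z (A * Real.exp (-Q z))} with hS
  have hne : S.Nonempty := ⟨s₀ * Real.exp (Q z₀), by positivity, z₀, hz₀, by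
    rwa [mul_assoc, ← Real.exp_add, add_neg_cancel, Real.exp_zero, mul_one]⟩
  have hbd : BddBelow S := ⟨0, fun A hA => hA.1.le⟩
  obtain ⟨u, hanti, hu, huS⟩ := exists_seq_tendsto_sInf hne hbd
  set m := sInf S with hm
  choose z hzU hzG using fun i => (huS i).2
  obtain ⟨K, hKU, hKc, hKG⟩ := hK (u 0) (huS 0).1
  have hzK : ∀ i, z i ∈ K := fun i => by
    by_contra hi
    exact hzG i ((hKG _ (hzU i) hi).mono (mul_nonneg (huS i).1.le (Real.exp_pos _).le)
      (mul_le_mul_of_nonneg_right (hanti (Nat.zero_le i)) (Real.exp_pos _).le))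
  obtain ⟨p, hpK, ψ, hψ, hp⟩ := hKc.tendsto_subseq hzK
  have hpU := hKU hpK
  have hlim : Tendsto (fun i => u (ψ i) * Real.exp (-Q (z (ψ i)))) atTop
      (𝓝 (m * Real.exp (-Q p))) :=
    (hu.comp hψ.tendsto_atTop).mul (Real.continuous_exp.continuousAt.tendsto.comp
      ((hQ.continuousAt (hU.mem_nhds hpU)).tendsto.comp hp).neg)
  have hup : ∀ s, m * Real.exp (-Q p) < s → ¬ GG F p s := fun s hs hG => by
    obtain ⟨i, h1, h2⟩ := ((hp.eventually hG.ev).and (hlim.eventually (gt_mem_nhds hs))).exists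
    exact hzG (ψ i) (h1.mono (mul_nonneg (huS _).1.le (Real.exp_pos _).le) h2.le)
  have hm0 : 0 < m := by
    obtain ⟨ε, hε, hsub⟩ := nhds_basis_closedBall.mem_iff.1 (hU.mem_nhds hpU)
    have hG := gg_ball hU hF (z := p) (δ := ε / 2) (by positivity)
      (by rwa [mul_div_cancel₀ _ (by norm_num)])
    by_contra h
    refine hup _ (lt_of_le_of_lt ?_ (by positivity)) hG
    exact mul_nonpos_of_nonpos_of_nonneg (not_lt.1 h) (Real.exp_pos _).le
  have hlow : ∀ A, 0 < A → A < m → ∀ y ∈ U, GG F y (A * Real.exp (-Q y)) := fun A hA hAm y hy => by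
    by_contra h
    exact absurd (csInf_le hbd (show A ∈ S from ⟨hA, y, hy, h⟩)) (not_le.2 hAm)
  obtain ⟨X, r, g, hr, hg, hd, hq, h0⟩ := hT p hpU
  set θ : ℝ := Real.exp (((g 0).re - Q p) / 4) with hθ
  have hθ0 : 0 < θ := Real.exp_pos _
  have hθ1 : θ < 1 := Real.exp_lt_one_iff.2 (by linarith)
  have := gg_disc hU hF hr (a := θ * m) (by positivity) hθ0 hθ1 hg hd fun ζ hζ =>
    (hlow (θ * m) (by positivity) (by nlinarith) _ (hd ζ (sphere_subset_closedBall hζ))).mono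
      (by positivity) (mul_le_mul_of_nonneg_left (Real.exp_le_exp.2 (neg_le_neg (hq ζ hζ)))
        (by positivity))
  refine hup _ ?_ this
  have e : θ * (θ * m) * Real.exp (-(g 0).re) =
      m * Real.exp (((g 0).re - Q p) / 4 + ((g 0).re - Q p) / 4 + -(g 0).re) := by
    rw [Real.exp_add, Real.exp_add]; ring
  rw [e]
  exact mul_lt_mul_of_pos_left (Real.exp_lt_exp.2 (by linarith)) hm0

lemma iter_line {U : Set E} (hU : IsOpen U) {F : E → ℂ} (hF : DifferentiableOn ℂ F U) (z v : E)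
    (k : ℕ) : ∀ t : ℂ, z + t • v ∈ U → iteratedDeriv k (fun t : ℂ => F (z + t • v)) t =
      iteratedFDeriv ℂ k F (z + t • v) fun _ => v := by
  induction k with
  | zero => intro t _; simp
  | succ k ih =>
    intro t ht
    have hc : Continuous fun t : ℂ => z + t • v := by fun_prop
    have hev : iteratedDeriv k (fun t : ℂ => F (z + t • v)) =ᶠ[𝓝 t]
        fun t : ℂ => iteratedFDeriv ℂ k F (z + t • v) fun _ => v :=
      (hc.continuousAt.eventually (hU.mem_nhds ht)).mono ih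
    rw [iteratedDeriv_succ, hev.deriv_eq, iteratedFDeriv_succ_apply_left]
    have h1 := line_deriv (diff_iter hU hF k ht)
    exact ((ContinuousMultilinearMap.apply ℂ (fun _ : Fin k => E) ℂ
      fun _ => v).hasFDerivAt.comp_hasDerivAt t h1).deriv

lemma entire_at {U : Set E} (hU : IsOpen U) {F : E → ℂ} (hF : DifferentiableOn ℂ F U) {z : E}
    (hz : z ∈ U) (h : ∀ s, 0 < s → GG F z s) :
    ∃ G : E → ℂ, AnalyticOnNhd ℂ G univ ∧ F =ᶠ[𝓝 z] G := by
  set P : FormalMultilinearSeries ℂ E ℂ := fun k => (k ! : ℂ)⁻¹ • iteratedFDeriv ℂ k F z with hP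
  have hrad : P.radius = ⊤ := by
    refine ENNReal.eq_top_of_forall_nnreal_le fun r => ?_
    obtain ⟨M, hM⟩ := (h (r + 1) (by positivity)).mono r.2 (by simp)
    refine P.le_radius_of_bound M fun k => ?_
    have hf : (0 : ℝ) < k ! := by exact_mod_cast k.factorial_pos
    have := hM.self_of_nhds k
    rw [hP]
    simp only
    rw [norm_smul, norm_inv, Complex.norm_natCast, mul_assoc, ← div_eq_inv_mul, div_le_iff₀ hf]
    exact this
  have han : AnalyticOnNhd ℂ P.sum univ := by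
    have := P.analyticOnNhd
    rwa [hrad, eball_top_eq_univ] at this
  refine ⟨fun y => P.sum (y - z), fun y _ => (han _ (mem_univ _)).comp_of_eq
    (analyticAt_id.sub analyticAt_const) rfl, ?_⟩
  obtain ⟨ε, hε, hsub⟩ := Metric.mem_nhds_iff.1 (hU.mem_nhds hz)
  filter_upwards [ball_mem_nhds z (half_pos hε)] with y hy
  have hm : ∀ t ∈ ball (0 : ℂ) 2, z + t • (y - z) ∈ U := fun t ht => hsub (by
    rw [mem_ball_zero_iff] at ht
    rw [mem_ball, dist_eq_norm] at hy
    rw [mem_ball, dist_eq_norm, add_sub_cancel_left, norm_smul]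
    nlinarith [norm_nonneg t, norm_nonneg (y - z)])
  have hsum := Complex.hasSum_taylorSeries_on_ball (f := fun t : ℂ => F (z + t • (y - z)))
    (c := 0) (r := 2) (z := 1) (fun t ht => (line_deriv (hF.differentiableAt
      (hU.mem_nhds (hm t ht)))).differentiableAt.differentiableWithinAt) (by simp)
  simp only [one_smul, add_sub_cancel, sub_zero, one_pow] at hsum
  rw [← hsum.tsum_eq, FormalMultilinearSeries.sum]
  refine tsum_congr fun k => ?_
  rw [iter_line hU hF z (y - z) k 0 (by simpa using hz)]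
  simp [hP]

theorem extend {U : Set E} (hU : IsOpen U) (hc : IsPreconnected U) (hne : U.Nonempty) {F : E → ℂ}
    (hF : DifferentiableOn ℂ F U) (h : ∀ z ∈ U, ∀ s, 0 < s → GG F z s) :
    ∃ G : E → ℂ, Differentiable ℂ G ∧ EqOn G F U := by
  obtain ⟨z, hz⟩ := hne
  have hA : AnalyticOnNhd ℂ F U := fun y hy => by
    obtain ⟨G, hG, e⟩ := entire_at hU hF hy (h y hy)
    exact (hG y (mem_univ _)).congr e.symm
  obtain ⟨G, hG, e⟩ := entire_at hU hF hz (h z hz)
  exact ⟨G, fun y => (hG y (mem_univ _)).differentiableAt,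
    (hG.mono (subset_univ _)).eqOn_of_preconnected_of_eventuallyEq hA hc hz e.symm⟩

end Pool.Agent.MP_fcd29e_an.H99.Hart
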