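import Pool.Agent.MP_fcd29e_an.H99.HBar
import Pool.Agent.MP_fcd29e_an.H99.HRad

/-!
Holomorphic functions on the cone over the concave side are entire.
-/

set_option autoImplicit false

open Pool.Agent.MP_fcd29e_an.H81 Complex Set Filter Topology Metric
open scoped ContDiff ComplexConjugate

namespace Pool.Agent.MP_fcd29e_an.H99.Hart

variable {N : ℕ}

lemma gg_low {ρ : E N → ℝ} (h : Dom ρ) {F : E N → ℂ} (hF : DifferentiableOn ℂ F (Op ρ)) :
    ∃ c > 0, ∀ z ∈ Op ρ, GG F z (c * (ρ z * ‖z‖)) := by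
  obtain ⟨-, hO, -, -, -, ⟨B, hB⟩, ⟨L, hL, hLip⟩, -⟩ := lv0.c1 N ρ h
  have hB0 : 0 ≤ B := (abs_nonneg _).trans (hB 0)
  set a : ℝ := 1 / (4 * (L + B + 1)) with ha
  have ha0 : 0 < a := by positivity
  have ha1 : 4 * a * (L + B + 1) = 1 := by rw [ha]; field_simp
  refine ⟨a / 3, by positivity, fun z hz => ?_⟩
  have hn := norm_pos_iff.2 hz.1
  have h0 := hz.2
  have := gg_ball hO hF (z := z) (δ := a * (ρ z * ‖z‖)) (by positivity) fun y hy => by
    rw [mem_closedBall, dist_eq_norm] at hy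
    have b0 : ρ z ≤ B := (le_abs_self _).trans (hB z)
    have b1 : 2 * (a * ρ z) ≤ 1 / 2 := by nlinarith [mul_pos ha0 hL]
    have b2 : ‖y - z‖ ≤ ‖z‖ / 2 := by nlinarith
    have b3 := (abs_le.1 (hLip z y hz.1 b2)).1
    have b4 : L * ‖y - z‖ / ‖z‖ ≤ ρ z / 2 := by
      rw [div_le_iff₀ hn]
      have b5 : 2 * (a * L) ≤ 1 / 2 := by nlinarith [mul_nonneg ha0.le hB0]
      have b6 := mul_le_mul_of_nonneg_left hy hL.le
      have b7 := mul_le_mul_of_nonneg_right b5 (mul_pos h0 hn).le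
      nlinarith
    refine ⟨?_, by linarith⟩
    rintro rfl
    rw [zero_sub, norm_neg] at b2
    linarith
  convert this using 1
  ring

theorem hartogs (hN : 4 ≤ N) {ρ : E N → ℝ} (h : Dom ρ) {F : E N → ℂ}
    (hF : DifferentiableOn ℂ F (Op ρ)) : ∃ G : E N → ℂ, Differentiable ℂ G ∧ EqOn G F (Op ρ) := by
  obtain ⟨B, C, hBs, hBi, hB0, hBg, hBl⟩ := barrier hN h
  obtain ⟨c, hc, hlow⟩ := gg_low h hF
  have hO := (lv0.c1 N ρ h).2.1
  set ε : ℝ := 1 / (16 * (|C| + 1)) with hε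
  have hε0 : 0 < ε := by positivity
  have hε1 : ε * (|C| + 1) = 1 / 16 := by rw [hε]; field_simp
  refine extend hO (H62.con lv0 allFP N (by omega) ρ h) h.proper hF
    (gg_all hO hF (Q := fun z => ε * B z + q0 (‖z‖ ^ 2)) (fun z hz => ?_) (fun A hA => ?_)
      fun p hp => ?_)
  · have hn : 0 < ‖z‖ ^ 2 := pow_pos (norm_pos_iff.2 hz.1) 2
    refine ContinuousAt.continuousWithinAt ((continuousAt_const.mul (hBs z hz).continuousAt).add ?_)
    have a1 : ContinuousAt (fun z : E N => ‖z‖ ^ 2) z := by fun_prop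
    exact (((continuousAt_const.add a1).log (add_pos one_pos hn).ne').div_const 2).sub
      (continuousAt_const.mul (a1.log hn.ne'))
  · obtain ⟨τ₀, hτ₀, h₀⟩ := hBg ε hε0 0
    obtain ⟨τ, hτ, h₁⟩ := hBg ε hε0 (Real.log (A / c))
    set T : ℝ := Real.log (A / c) - min 0 (Real.log τ₀) with hT
    have hsh : IsCompact (closedBall (0 : E N) (Real.exp (2 * T)) ∩
        {z | Real.exp (-(2 * T)) ≤ ‖z‖}) :=
      (isCompact_closedBall _ _).inter_right (isClosed_le continuous_const continuous_norm)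
    have hsh0 : ∀ z ∈ closedBall (0 : E N) (Real.exp (2 * T)) ∩ {z | Real.exp (-(2 * T)) ≤ ‖z‖},
        z ≠ 0 := fun z hz => norm_pos_iff.1 ((Real.exp_pos _).trans_le hz.2)
    refine ⟨_, fun z hz => ⟨hsh0 z hz.1, hτ.trans_le hz.2⟩,
      compact_of h hsh (fun h0 => hsh0 0 h0 rfl) (isClosed_Ici (a := τ)), fun z hz hK => ?_⟩
    have hn := norm_pos_iff.2 hz.1
    have h0 := hz.2
    refine (hlow z hz).mono (by positivity) ?_
    have l0 : Real.log (‖z‖ ^ 2) = 2 * Real.log ‖z‖ := by simp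
    have l1 : 0 ≤ Real.log (1 + ‖z‖ ^ 2) := Real.log_nonneg (by nlinarith)
    have l2 : Real.log (‖z‖ ^ 2) ≤ Real.log (1 + ‖z‖ ^ 2) :=
      Real.log_le_log (by positivity) (by linarith)
    have l3 : min 0 (Real.log τ₀) ≤ Real.log (ρ z) + ε * B z := by
      rcases lt_or_ge (ρ z) τ₀ with a | a
      · exact (min_le_left _ _).trans (h₀ z hz a)
      · linarith [min_le_right 0 (Real.log τ₀), Real.log_le_log hτ₀ a, mul_nonneg hε0.le (hB0 z)]
    have key : Real.log (A / c) ≤ Real.log (ρ z) + Real.log ‖z‖ + (ε * B z + q0 (‖z‖ ^ 2)) := by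
      rw [q0]
      by_contra hlt
      refine hK ⟨⟨?_, ?_⟩, ?_⟩
      · rw [mem_closedBall_zero_iff, ← Real.log_le_iff_le_exp hn]
        linarith
      · show Real.exp _ ≤ ‖z‖
        rw [← Real.le_log_iff_exp_le hn]
        linarith
      · by_contra a
        have := h₁ z hz (not_le.1 a)
        rcases le_total 0 (Real.log ‖z‖) with b | b <;> linarith
    have e := Real.exp_le_exp.2 key
    rw [Real.exp_log (by positivity), Real.exp_add, Real.exp_add, Real.exp_log h0, Real.exp_log hn,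
      div_le_iff₀ hc] at e
    rw [Real.exp_neg, ← div_eq_mul_inv, div_le_iff₀ (Real.exp_pos _)]
    linarith
  obtain ⟨a1, a2⟩ := nrm hp.1
  have hn := norm_pos_iff.2 hp.1
  set q : E N := ((‖p‖⁻¹ : ℝ) : ℂ) • p with hq
  have hqO : q ∈ Op ρ := (lv0.c1 N ρ h).2.2.2.1.2 _ a1 p hp
  obtain ⟨X, hX, hXq, hXl⟩ := hBl q hqO a2
  obtain ⟨r₁, hr₁, g, hg, hg0, hgb⟩ := tay_disc ((hBs q hqO).of_le
    (WithTop.coe_le_coe.2 (le_top (a := (2 : ℕ∞))))) X hXl
  have hXn := norm_pos_iff.2 hX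
  have hpq : p = (‖p‖ : ℂ) • q := by
    rw [hq, smul_smul, ← ofReal_mul, mul_inv_cancel₀ hn.ne', ofReal_one, one_smul]
  have hl : ∀ ζ : ℂ, p + ζ • ((‖p‖ : ℂ) • X) = (‖p‖ : ℂ) • (q + ζ • X) := fun ζ => by
    rw [smul_add, ← hpq, smul_comm]
  have hpc : (‖p‖ : ℂ) ≠ 0 := by exact_mod_cast hn.ne'
  have hcont : Continuous fun ζ : ℂ => p + ζ • ((‖p‖ : ℂ) • X) := by fun_prop
  obtain ⟨r₂, hr₂, hb⟩ := nhds_basis_closedBall.eventually_iff.1
    ((hcont.continuousAt (x := 0)).eventually (hO.mem_nhds (by simpa using hp)))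
  set r : ℝ := min (min r₁ r₂) ‖X‖⁻¹ with hr
  have hr0 : 0 < r := by positivity
  have hr1 : r * ‖X‖ ≤ 1 := by
    have := mul_le_mul_of_nonneg_right (min_le_right (min r₁ r₂) ‖X‖⁻¹) hXn.le
    rwa [inv_mul_cancel₀ hXn.ne'] at this
  set w : ℝ := r ^ 2 * ‖X‖ ^ 2 with hw
  have hw0 : 0 < w := by positivity
  have hw1 : w ≤ 1 := by
    rw [hw, ← mul_pow]
    exact pow_le_one₀ (by positivity) hr1
  refine ⟨(‖p‖ : ℂ) • X, r, fun ζ => ε * g ζ + (q0 (‖p‖ ^ 2) - w / 16 : ℝ), hr0, by fun_prop,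
    fun ζ hζ => hb (closedBall_subset_closedBall ((min_le_left _ _).trans (min_le_right _ _)) hζ),
    fun ζ hζ => ?_, ?_⟩
  · rw [mem_sphere_zero_iff_norm] at hζ
    have b1 := hgb ζ (hζ.le.trans ((min_le_left _ _).trans (min_le_left _ _)))
    have b2 : ‖q + ζ • X‖ ^ 2 = 1 + w := by
      have := norm_add_sq_eq_norm_sq_add_norm_sq_of_inner_eq_zero (𝕜 := ℂ) q (ζ • X)
        (by rw [inner_smul_right, hXq, mul_zero])
      rw [sq, this, a2, norm_smul, hζ, hw]; ring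
    have b3 : ‖p + ζ • ((‖p‖ : ℂ) • X)‖ ^ 2 = ‖p‖ ^ 2 + ‖p‖ ^ 2 * w := by
      rw [hl, norm_smul, mul_pow, b2, Complex.norm_real, norm_norm]; ring
    have b4 := q0_dec (s := ‖p‖ ^ 2) (h := ‖p‖ ^ 2 * w) (by positivity) (by positivity)
      (mul_le_of_le_one_right (by positivity) hw1)
    have b5 : ‖p‖ ^ 2 * w / (8 * ‖p‖ ^ 2) = w / 8 := by field_simp
    rw [hζ, ← hw] at b1
    have b6 := mul_le_mul_of_nonneg_left b1 hε0.le
    have b7 : ε * ((C + 1) * w) ≤ w / 16 := by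
      have : ε * (C + 1) ≤ 1 / 16 := by
        rw [← hε1]
        exact mul_le_mul_of_nonneg_left (by linarith [le_abs_self C]) hε0.le
      nlinarith
    simp only [b3, add_re, re_ofReal_mul, ofReal_re]
    rw [hl, hBi _ hpc]
    linarith
  · have : B p = B q := by rw [hq, hBi _ a1]
    simp only [add_re, re_ofReal_mul, ofReal_re, hg0, this]
    linarith

end Pool.Agent.MP_fcd29e_an.H99.Hart
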