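import Mathlib

/-!
Holomorphic functions of several variables on open sets: Cauchy estimates and smoothness.
-/

set_option autoImplicit false

open Complex Metric Set MeasureTheory Filter
open scoped Real Topology Nat

namespace Pool.Agent.MP_fcd29e_an.H99.Hart

variable {E : Type*} [NormedAddCommGroup E] [NormedSpace ℂ E]

lemma line_deriv {B : Type*} [NormedAddCommGroup B] [NormedSpace ℂ B] {G : E → B} {y v : E}
    {t : ℂ} (h : DifferentiableAt ℂ G (y + t • v)) :
    HasDerivAt (fun t : ℂ => G (y + t • v)) (fderiv ℂ G (y + t • v) v) t := by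
  have h1 : HasDerivAt (fun t : ℂ => y + t • v) v t := by
    simpa using ((hasDerivAt_id t).smul_const v).const_add y
  exact h.hasFDerivAt.comp_hasDerivAt t h1

lemma line_dc {B : Type*} [NormedAddCommGroup B] [NormedSpace ℂ B] {G : E → B} {y v : E} {R : ℝ}
    (h : ∀ t ∈ closedBall (0 : ℂ) R, DifferentiableAt ℂ G (y + t • v)) :
    DiffContOnCl ℂ (fun t : ℂ => G (y + t • v)) (ball 0 R) :=
  DifferentiableOn.diffContOnCl fun t ht =>
    (line_deriv (h t (closure_ball_subset_closedBall ht))).differentiableAt.differentiableWithinAt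

lemma cauchy1 {B : Type*} [NormedAddCommGroup B] [NormedSpace ℂ B] {G : E → B} {y : E} {r M : ℝ}
    (hr : 0 < r) (hG : ∀ x ∈ closedBall y r, DifferentiableAt ℂ G x)
    (hM : ∀ x ∈ closedBall y r, ‖G x‖ ≤ M) : ‖fderiv ℂ G y‖ ≤ M / r := by
  have hM0 : 0 ≤ M := (norm_nonneg _).trans (hM y (mem_closedBall_self hr.le))
  refine ContinuousLinearMap.opNorm_le_bound _ (by positivity) fun v => ?_
  rcases eq_or_ne v 0 with rfl | hv
  · simp
  have hn : 0 < ‖v‖ := norm_pos_iff.2 hv
  have hm : ∀ t ∈ closedBall (0 : ℂ) (r / ‖v‖), y + t • v ∈ closedBall y r := fun t ht => by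
    rw [mem_closedBall_zero_iff, le_div_iff₀ hn] at ht
    simpa [norm_smul] using ht
  have h := Complex.norm_deriv_le_of_forall_mem_sphere_norm_le (by positivity : 0 < r / ‖v‖)
    (line_dc fun t ht => hG _ (hm t ht)) fun t ht => hM _ (hm t (sphere_subset_closedBall ht))
  have h0 := (line_deriv (G := G) (y := y) (v := v) (t := 0)
    (by simpa using hG y (mem_closedBall_self hr.le))).deriv
  rw [h0] at h
  simp only [zero_smul, add_zero] at h
  refine h.trans (le_of_eq ?_)
  field_simp

/-- The kernel in the Cauchy formula for the first derivative. -/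
noncomputable def cker (θ : ℝ) : ℂ :=
  (2 * π * I)⁻¹ * (deriv (circleMap 0 1) θ * (1 / (circleMap 0 1 θ - 0) ^ 2))

lemma continuous_cker : Continuous cker := by
  unfold cker
  simp only [deriv_circleMap]
  refine continuous_const.mul (((continuous_circleMap 0 1).mul continuous_const).mul ?_)
  refine continuous_const.div (((continuous_circleMap 0 1).sub continuous_const).pow 2) ?_
  intro θ
  simp

lemma fderiv_eq_integral {F : E → ℂ} {y v : E}
    (h : ∀ t ∈ closedBall (0 : ℂ) 1, DifferentiableAt ℂ F (y + t • v)) :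
    fderiv ℂ F y v = ∫ θ in (0 : ℝ)..2 * π, cker θ * F (y + circleMap 0 1 θ • v) := by
  have h1 := (line_dc h).deriv_eq_smul_circleIntegral one_pos
  have h0 := (line_deriv (h 0 (by simp))).deriv
  simp only [zero_smul, add_zero] at h0
  rw [h0] at h1
  have h2 : fderiv ℂ F y v = (2 * π * I)⁻¹ * ((2 * π * I) • fderiv ℂ F y v) := by
    rw [smul_eq_mul, ← mul_assoc, inv_mul_cancel₀ two_pi_I_ne_zero, one_mul]
  rw [h2, ← h1, circleIntegral, ← intervalIntegral.integral_const_mul]
  congr 1
  ext θ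
  simp only [cker, smul_eq_mul]
  ring

variable [FiniteDimensional ℂ E]

lemma osgood_small {F : E → ℂ} {z v : E} {δ : ℝ} (hδ : 0 < δ) (hv : ‖v‖ ≤ δ)
    (hF : ∀ x ∈ closedBall z (3 * δ), DifferentiableAt ℂ F x) :
    DifferentiableAt ℂ (fun y => fderiv ℂ F y v) z := by
  have : ProperSpace E := FiniteDimensional.proper ℂ E
  borelize E
  borelize (E →L[ℂ] ℂ)
  have hc : ContinuousOn F (closedBall z (3 * δ)) := fun x hx =>
    (hF x hx).continuousAt.continuousWithinAt
  obtain ⟨M, hM⟩ := (isCompact_closedBall z (3 * δ)).exists_bound_of_continuousOn hc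
  obtain ⟨K, hK⟩ := (isCompact_uIcc (a := (0 : ℝ)) (b := 2 * π)).exists_bound_of_continuousOn
    continuous_cker.continuousOn
  have hm : ∀ y ∈ closedBall z δ, ∀ t ∈ closedBall (0 : ℂ) 1, y + t • v ∈ closedBall z (2 * δ) := by
    intro y hy t ht
    rw [mem_closedBall_zero_iff] at ht
    rw [mem_closedBall, dist_eq_norm] at hy ⊢
    have e : y + t • v - z = (y - z) + t • v := by abel
    rw [e]
    refine (norm_add_le _ _).trans ?_
    rw [norm_smul]
    nlinarith [norm_nonneg t, norm_nonneg v]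
  have hs : closedBall z (2 * δ) ⊆ closedBall z (3 * δ) := closedBall_subset_closedBall (by linarith)
  have hcm : ∀ θ, circleMap 0 1 θ ∈ closedBall (0 : ℂ) 1 := fun θ =>
    circleMap_mem_closedBall 0 zero_le_one θ
  have h3 := continuous_circleMap 0 1
  have hcont : ∀ y ∈ closedBall z δ, Continuous fun θ => cker θ * F (y + circleMap 0 1 θ • v) :=
    fun y hy => continuous_cker.mul
      (hc.comp_continuous (by fun_prop) fun θ => hs (hm y hy _ (hcm θ)))
  have hb : ∀ x ∈ closedBall z (2 * δ), ‖fderiv ℂ F x‖ ≤ M / δ := fun x hx => by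
    have hsub : closedBall x δ ⊆ closedBall z (3 * δ) :=
      closedBall_subset_closedBall' (by rw [mem_closedBall] at hx; linarith)
    exact cauchy1 hδ (fun w hw => hF w (hsub hw)) fun w hw => hM w (hsub hw)
  have key := intervalIntegral.hasFDerivAt_integral_of_dominated_of_fderiv_le (𝕜 := ℂ)
    (μ := volume) (a := 0) (b := 2 * π) (bound := fun _ => K * (M / δ))
    (F := fun y θ => cker θ * F (y + circleMap 0 1 θ • v))
    (F' := fun y θ => cker θ • fderiv ℂ F (y + circleMap 0 1 θ • v)) (x₀ := z)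
    (closedBall_mem_nhds z hδ)
    (mem_of_superset (closedBall_mem_nhds z hδ) fun y hy => (hcont y hy).aestronglyMeasurable)
    ((hcont z (mem_closedBall_self hδ.le)).intervalIntegrable _ _)
    (continuous_cker.aestronglyMeasurable.smul
      ((measurable_fderiv ℂ F).comp
        (Continuous.measurable (by fun_prop))).aestronglyMeasurable)
    (Eventually.of_forall fun θ hθ y hy => by
      rw [norm_smul]
      exact mul_le_mul (hK θ (uIoc_subset_uIcc hθ)) (hb _ (hm y hy _ (hcm θ))) (norm_nonneg _)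
        ((norm_nonneg _).trans (hK θ (uIoc_subset_uIcc hθ))))
    intervalIntegrable_const
    (Eventually.of_forall fun θ _ y hy => by
      have h5 : HasFDerivAt (fun x : E => F (x + circleMap 0 1 θ • v))
          (fderiv ℂ F (y + circleMap 0 1 θ • v)) y := by
        have := (hF _ (hs (hm y hy _ (hcm θ)))).hasFDerivAt.comp y
          ((hasFDerivAt_id y).add_const (circleMap 0 1 θ • v))
        simpa [Function.comp_def] using this
      exact h5.const_mul _)
  refine key.differentiableAt.congr_of_eventuallyEq ?_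
  filter_upwards [closedBall_mem_nhds z hδ] with y hy
  exact fderiv_eq_integral fun t ht => hF _ (hs (hm y hy t ht))

lemma osgood {F : E → ℂ} {U : Set E} (hU : IsOpen U) (hF : DifferentiableOn ℂ F U) (v : E) :
    DifferentiableOn ℂ (fun y => fderiv ℂ F y v) U := by
  intro z hz
  obtain ⟨ε, hε, hsub⟩ := nhds_basis_closedBall.mem_iff.1 (hU.mem_nhds hz)
  have hδ : 0 < ε / 3 := by positivity
  set c : ℝ := ε / 3 / (‖v‖ + 1) with hc
  have hc0 : 0 < c := by positivity
  have hv : ‖(c : ℂ) • v‖ ≤ ε / 3 := by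
    rw [norm_smul, Complex.norm_real, Real.norm_of_nonneg hc0.le, hc, div_mul_eq_mul_div,
      div_le_iff₀ (by positivity)]
    nlinarith
  have h := osgood_small (F := F) (z := z) hδ hv fun x hx =>
    hF.differentiableAt (hU.mem_nhds (hsub (by rwa [mul_div_cancel₀ _ (by norm_num)] at hx)))
  have e : (fun y => fderiv ℂ F y v) = fun y => (c : ℂ)⁻¹ * fderiv ℂ F y ((c : ℂ) • v) := by
    funext y
    rw [map_smul, smul_eq_mul, ← mul_assoc, inv_mul_cancel₀ (by exact_mod_cast hc0.ne'), one_mul]
  rw [e]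
  exact (h.const_mul _).differentiableWithinAt

lemma contDiffOn_hol {U : Set E} (hU : IsOpen U) (n : ℕ) :
    ∀ {F : E → ℂ}, DifferentiableOn ℂ F U → ContDiffOn ℂ n F U := by
  induction n with
  | zero => intro F hF; simpa using hF.continuousOn
  | succ n ih =>
    intro F hF
    rw [Nat.cast_succ, contDiffOn_succ_iff_fderiv_of_isOpen hU]
    exact ⟨hF, by simp, contDiffOn_clm_apply.2 fun v => ih (osgood hU hF v)⟩

lemma diff_iter {U : Set E} (hU : IsOpen U) {F : E → ℂ} (hF : DifferentiableOn ℂ F U) (k : ℕ)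
    {y : E} (hy : y ∈ U) : DifferentiableAt ℂ (iteratedFDeriv ℂ k F) y :=
  ((contDiffOn_hol hU (k + 1) hF).contDiffAt (hU.mem_nhds hy)).differentiableAt_iteratedFDeriv
    (by exact_mod_cast Nat.lt_succ_self k)

lemma cauchy_iter {U : Set E} (hU : IsOpen U) {F : E → ℂ} (hF : DifferentiableOn ℂ F U) {z : E}
    {δ M ρ : ℝ} (hρ : 0 < ρ) (hz : closedBall z δ ⊆ U) (hM : ∀ x ∈ closedBall z δ, ‖F x‖ ≤ M)
    (k : ℕ) : ∀ y, dist y z + k * ρ ≤ δ → ‖iteratedFDeriv ℂ k F y‖ ≤ M / ρ ^ k := by
  induction k with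
  | zero => intro y hy; simpa using hM y (by simpa using hy)
  | succ k ih =>
    intro y hy
    push_cast at hy
    have hk : (0 : ℝ) ≤ k * ρ := by positivity
    rw [← norm_fderiv_iteratedFDeriv, pow_succ, ← div_div]
    refine cauchy1 hρ (fun x hx => diff_iter hU hF k (hz ?_)) fun x hx => ih x ?_
    · rw [mem_closedBall] at hx ⊢
      linarith [dist_triangle x y z]
    · rw [mem_closedBall] at hx
      linarith [dist_triangle x y z]

lemma cauchy_fact {U : Set E} (hU : IsOpen U) {F : E → ℂ} (hF : DifferentiableOn ℂ F U) {z : E}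
    {δ M : ℝ} (hδ : 0 < δ) (hz : closedBall z (2 * δ) ⊆ U)
    (hM : ∀ x ∈ closedBall z (2 * δ), ‖F x‖ ≤ M) (k : ℕ) {y : E} (hy : y ∈ closedBall z δ) :
    ‖iteratedFDeriv ℂ k F y‖ * (δ / 3) ^ k ≤ M * k ! := by
  rw [mem_closedBall] at hy
  have hM0 : 0 ≤ M := (norm_nonneg _).trans (hM z (mem_closedBall_self (by linarith)))
  rcases Nat.eq_zero_or_pos k with rfl | hk
  · simpa using hM y (by rw [mem_closedBall]; linarith)
  have hk' : (0 : ℝ) < k := by exact_mod_cast hk
  have h := cauchy_iter hU hF (ρ := δ / k) (by positivity) hz hM k y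
    (by rw [mul_div_cancel₀ _ hk'.ne']; linarith)
  have h1 : (k : ℝ) ^ k / k ! ≤ 3 ^ k := by
    refine (Real.pow_div_factorial_le_exp _ hk'.le k).trans ?_
    rw [← Real.exp_one_pow]
    exact pow_le_pow_left₀ (Real.exp_pos 1).le (Real.exp_one_lt_d9.le.trans (by norm_num)) k
  have hf : (0 : ℝ) < k ! := by exact_mod_cast k.factorial_pos
  rw [div_le_iff₀ hf] at h1
  calc ‖iteratedFDeriv ℂ k F y‖ * (δ / 3) ^ k ≤ M / (δ / k) ^ k * (δ / 3) ^ k :=
        mul_le_mul_of_nonneg_right h (by positivity)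
    _ = M * ((k : ℝ) ^ k / 3 ^ k) := by rw [div_pow, div_pow]; field_simp
    _ ≤ M * k ! := by
        refine mul_le_mul_of_nonneg_left ?_ hM0
        rw [div_le_iff₀ (by positivity)]; linarith

end Pool.Agent.MP_fcd29e_an.H99.Hart
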