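import Pool.Agent.MP_fcd29e_an.H81.Spec

/-!
Young's inequality, smoothness of convolutions with test functions, and convergence of mollifiers.
-/

set_option autoImplicit false

open Pool.Agent.MP_fcd29e_an.H81 MeasureTheory Complex Set Filter Topology Metric
open scoped ContDiff ComplexConjugate ENNReal NNReal Convolution

namespace Pool.Agent.MP_fcd29e_an.H99

variable {N : ℕ}

theorem meas_int (k g : E N → ℂ) (hk : AEStronglyMeasurable k volume)
    (hg : AEStronglyMeasurable g volume) :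
    AEStronglyMeasurable (fun p : E N × E N => k (p.1 - p.2) * g p.2) (volume.prod volume) :=
  hg.convolution_integrand (ContinuousLinearMap.mul ℝ ℂ).flip hk

theorem cs (K G : E N → ℝ≥0∞) (hK : AEMeasurable K volume) (hG : AEMeasurable G volume) :
    (∫⁻ y, K y * G y) ^ (2 : ℝ) ≤ (∫⁻ y, K y) * ∫⁻ y, K y * G y ^ (2 : ℝ) := by
  have h2 : (2 : ℝ).HolderConjugate 2 := Real.HolderConjugate.two_two
  have h := ENNReal.lintegral_mul_le_Lp_mul_Lq volume h2 (f := fun y => K y ^ (1 / 2 : ℝ))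
    (g := fun y => K y ^ (1 / 2 : ℝ) * G y) (hK.pow_const _) ((hK.pow_const _).mul hG)
  have e1 : ∀ y, (K y ^ (1 / 2 : ℝ)) ^ (2 : ℝ) = K y := fun y => by
    rw [← ENNReal.rpow_mul]; norm_num
  have e2 : ∀ y, (K y ^ (1 / 2 : ℝ) * G y) ^ (2 : ℝ) = K y * G y ^ (2 : ℝ) := fun y => by
    rw [ENNReal.mul_rpow_of_nonneg _ _ (by norm_num), e1]
  have e3 : ∀ y, K y ^ (1 / 2 : ℝ) * (K y ^ (1 / 2 : ℝ) * G y) = K y * G y := fun y => by
    rw [← mul_assoc, ← ENNReal.rpow_add_of_nonneg _ _ (by norm_num) (by norm_num)]; norm_num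
  simp only [Pi.mul_apply, e1, e2, e3] at h
  refine (ENNReal.rpow_le_rpow h (by norm_num : (0 : ℝ) ≤ 2)).trans (le_of_eq ?_)
  rw [ENNReal.mul_rpow_of_nonneg _ _ (by norm_num), ← ENNReal.rpow_mul, ← ENNReal.rpow_mul]
  norm_num

theorem young_core (k g : E N → ℂ) (hk : AEStronglyMeasurable k volume)
    (hg : AEStronglyMeasurable g volume) :
    ∫⁻ x, (∫⁻ y, ‖k (x - y)‖ₑ * ‖g y‖ₑ) ^ (2 : ℝ) ≤
      (∫⁻ y, ‖k y‖ₑ) ^ (2 : ℝ) * ∫⁻ y, ‖g y‖ₑ ^ (2 : ℝ) := by
  have hK : AEMeasurable (fun y => ‖k y‖ₑ) volume := hk.enorm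
  have hG : AEMeasurable (fun y => ‖g y‖ₑ) volume := hg.enorm
  have hp : AEMeasurable (fun p : E N × E N => ‖k (p.1 - p.2)‖ₑ) (volume.prod volume) :=
    hK.comp_quasiMeasurePreserving (quasiMeasurePreserving_sub_of_right_invariant volume volume)
  have hq : AEMeasurable (fun p : E N × E N => ‖k (p.1 - p.2)‖ₑ * ‖g p.2‖ₑ ^ (2 : ℝ))
      (volume.prod volume) := hp.mul (hG.pow_const _).comp_snd
  have h1 : ∀ x, (∫⁻ y, ‖k (x - y)‖ₑ * ‖g y‖ₑ) ^ (2 : ℝ) ≤
      (∫⁻ y, ‖k y‖ₑ) * ∫⁻ y, ‖k (x - y)‖ₑ * ‖g y‖ₑ ^ (2 : ℝ) := fun x => by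
    have := cs (fun y => ‖k (x - y)‖ₑ) (fun y => ‖g y‖ₑ)
      (hK.comp_quasiMeasurePreserving
        (Measure.measurePreserving_sub_left volume x).quasiMeasurePreserving) hG
    rwa [lintegral_sub_left_eq_self (fun y => ‖k y‖ₑ)] at this
  refine (lintegral_mono h1).trans (le_of_eq ?_)
  rw [lintegral_const_mul'' _ hq.lintegral_prod_right', lintegral_lintegral_swap hq]
  have h2 : ∀ y, ∫⁻ x, ‖k (x - y)‖ₑ * ‖g y‖ₑ ^ (2 : ℝ) = (∫⁻ y, ‖k y‖ₑ) * ‖g y‖ₑ ^ (2 : ℝ) :=
    fun y => by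
      have hy : AEMeasurable (fun x => ‖k (x - y)‖ₑ) volume :=
        hK.comp_quasiMeasurePreserving (measurePreserving_sub_right volume y).quasiMeasurePreserving
      rw [lintegral_mul_const'' _ hy, lintegral_sub_right_eq_self (fun y => ‖k y‖ₑ)]
  simp only [h2]
  rw [lintegral_const_mul'' _ (hG.pow_const _), ← mul_assoc, ENNReal.rpow_two, sq]

theorem young (k g : E N → ℂ) (hk : Integrable k) (hg : MemLp g 2 volume) :
    MemLp (fun x => ∫ y, k (x - y) * g y) 2 volume ∧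
    eLpNorm (fun x => ∫ y, k (x - y) * g y) 2 volume ≤ eLpNorm k 1 volume * eLpNorm g 2 volume ∧
    ∀ᵐ x, Integrable fun y => k (x - y) * g y := by
  have hm := meas_int k g hk.1 hg.1
  have hc := young_core k g hk.1 hg.1
  have hle : eLpNorm (fun x => ∫ y, k (x - y) * g y) 2 volume ≤
      eLpNorm k 1 volume * eLpNorm g 2 volume := by
    rw [eLpNorm_one_eq_lintegral_enorm,
      eLpNorm_eq_lintegral_rpow_enorm_toReal two_ne_zero ENNReal.ofNat_ne_top,
      eLpNorm_eq_lintegral_rpow_enorm_toReal two_ne_zero ENNReal.ofNat_ne_top]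
    simp only [ENNReal.toReal_ofNat]
    have h1 : ∫⁻ x, ‖∫ y, k (x - y) * g y‖ₑ ^ (2 : ℝ) ≤
        (∫⁻ y, ‖k y‖ₑ) ^ (2 : ℝ) * ∫⁻ y, ‖g y‖ₑ ^ (2 : ℝ) := by
      refine le_trans (lintegral_mono fun x => ?_) hc
      refine ENNReal.rpow_le_rpow ?_ (by norm_num)
      refine (enorm_integral_le_lintegral_enorm _).trans (le_of_eq ?_)
      simp only [enorm_mul]
    refine (ENNReal.rpow_le_rpow h1 (by norm_num : (0 : ℝ) ≤ 1 / 2)).trans (le_of_eq ?_)
    rw [ENNReal.mul_rpow_of_nonneg _ _ (by norm_num), ← ENNReal.rpow_mul]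
    norm_num
  have hfin : eLpNorm k 1 volume * eLpNorm g 2 volume < ⊤ :=
    ENNReal.mul_lt_top (memLp_one_iff_integrable.2 hk).2 hg.2
  refine ⟨⟨hm.integral_prod_right', hle.trans_lt hfin⟩, hle, ?_⟩
  have hF : AEMeasurable (fun x => (∫⁻ y, ‖k (x - y)‖ₑ * ‖g y‖ₑ) ^ (2 : ℝ)) volume := by
    have := hm.enorm.lintegral_prod_right'
    simp only [enorm_mul] at this
    exact this.pow_const _
  have hfin2 : (∫⁻ y, ‖k y‖ₑ) ^ (2 : ℝ) * ∫⁻ y, ‖g y‖ₑ ^ (2 : ℝ) < ⊤ := by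
    refine ENNReal.mul_lt_top (ENNReal.rpow_lt_top_of_nonneg (by norm_num) hk.2.ne) ?_
    have := lintegral_rpow_enorm_lt_top_of_eLpNorm_lt_top two_ne_zero ENNReal.ofNat_ne_top hg.2
    simpa only [ENNReal.toReal_ofNat] using this
  filter_upwards [ae_lt_top' hF (hc.trans_lt hfin2).ne, hm.prodMk_left] with x hx hx2
  refine ⟨hx2, ?_⟩
  rw [HasFiniteIntegral]
  simp only [enorm_mul]
  by_contra hcon
  rw [not_lt, top_le_iff] at hcon
  rw [hcon, ENNReal.top_rpow_of_pos (by norm_num)] at hx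
  exact lt_irrefl _ hx

theorem smooth (k g : E N → ℂ) (hk : Tst k) (hg : LocallyIntegrable g) :
    ContDiff ℝ ∞ (fun x => ∫ y, k (x - y) * g y) ∧
      ∀ x v, fderiv ℝ (fun x => ∫ y, k (x - y) * g y) x v = ∫ y, fderiv ℝ k (x - y) v * g y := by
  have e : (fun x => ∫ y, k (x - y) * g y) =
      g ⋆[(ContinuousLinearMap.mul ℝ ℂ).flip, volume] k := rfl
  rw [e]
  refine ⟨hk.2.contDiff_convolution_right _ hg hk.1, fun x v => ?_⟩
  have h1 : ContDiff ℝ 1 k := hk.1.of_le (by simp)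
  rw [(hk.2.hasFDerivAt_convolution_right _ hg h1 x).fderiv,
    convolution_precompR_apply _ hg (hk.2.fderiv ℝ) (h1.continuous_fderiv one_ne_zero)]
  rfl

theorem eta_int (hb : StmtBM1) (hN : 1 ≤ N) {r : ℝ} (hr : 0 < r) :
    Integrable (eta r : E N → ℂ) ∧ ∫ y : E N, ‖eta r y‖ = 1 := by
  obtain ⟨ht, h1, h2⟩ := (hb N hN).2.2.1 r hr
  have hi : Integrable (eta r : E N → ℂ) :=
    ht.1.continuous.integrable_of_hasCompactSupport ht.2
  refine ⟨hi, ?_⟩
  have e : ∀ y : E N, ‖eta r y‖ = (eta r y).re := fun y => by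
    have h3 : eta r y = ((eta r y).re : ℂ) := Complex.ext (by simp) (by simp [(h2 y).2.1])
    rw [h3, Complex.norm_real, Real.norm_of_nonneg (h2 y).1, Complex.ofReal_re]
  simp only [e]
  have := integral_re hi
  simp only [RCLike.re_to_complex] at this
  rw [this, h1, Complex.one_re]

theorem eta_one (hb : StmtBM1) (hN : 1 ≤ N) {r : ℝ} (hr : 0 < r) :
    eLpNorm (eta r : E N → ℂ) 1 volume = 1 := by
  obtain ⟨hi, h1⟩ := eta_int hb hN hr
  rw [eLpNorm_one_eq_lintegral_enorm, ← ofReal_integral_norm_eq_lintegral_enorm hi, h1,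
    ENNReal.ofReal_one]

theorem conv_cc (hb : StmtBM1) (hN : 1 ≤ N) (φ : E N → ℂ) (hc : HasCompactSupport φ)
    (hφ : Continuous φ) :
    Tendsto (fun r => eLpNorm (fun x => Mo r φ x - φ x) 2 volume) (𝓝[>] 0) (𝓝 0) := by
  have hu : UniformContinuous φ := hc.uniformContinuous_of_continuous hφ
  set K : Set (E N) := cthickening 2 (tsupport φ) with hKdef
  have hK : IsCompact K := hc.isCompact.cthickening
  have hKm : volume K ^ (1 / 2 : ℝ) ≠ ⊤ :=
    (ENNReal.rpow_lt_top_of_nonneg (by norm_num) hK.measure_lt_top.ne).ne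
  have key : ∀ ε : ℝ, 0 < ε → ∀ᶠ r in 𝓝[>] (0 : ℝ),
      eLpNorm (fun x => Mo r φ x - φ x) 2 volume ≤ ENNReal.ofReal ε * volume K ^ (1 / 2 : ℝ) := by
    intro ε hε
    obtain ⟨δ, hδ, hd⟩ := Metric.uniformContinuous_iff.1 hu ε hε
    have hmem : Ioo (0 : ℝ) (min 1 (δ / 2)) ∈ 𝓝[>] (0 : ℝ) :=
      Ioo_mem_nhdsGT (lt_min one_pos (half_pos hδ))
    filter_upwards [hmem] with r hr
    have hr0 : 0 < r := hr.1
    have hr1 : r < 1 := hr.2.trans_le (min_le_left _ _)
    have hr2 : r < δ / 2 := hr.2.trans_le (min_le_right _ _)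
    obtain ⟨ht, h1, h2⟩ := (hb N hN).2.2.1 r hr0
    obtain ⟨hi, hn⟩ := eta_int hb hN hr0
    have hb1 : ∀ x, ‖Mo r φ x - φ x‖ ≤ ε := fun x => by
      have hix : Integrable fun y => eta r (x - y) := hi.comp_sub_left x
      have hi2 : Integrable fun y => eta r (x - y) * φ y :=
        ((ht.1.continuous.comp (continuous_const.sub continuous_id)).mul
          hφ).integrable_of_hasCompactSupport hc.mul_left
      have e1 : ∫ y, eta r (x - y) * φ x = φ x := by
        rw [integral_mul_const, integral_sub_left_eq_self (fun y => eta r y), h1, one_mul]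
      have e2 : Mo r φ x - φ x = ∫ y, (eta r (x - y) * φ y - eta r (x - y) * φ x) := by
        rw [integral_sub hi2 (hix.mul_const _), e1]; rfl
      rw [e2]
      have e3 : ∫ y, ‖eta r (x - y)‖ * ε = ε := by
        rw [integral_mul_const, integral_sub_left_eq_self (fun y => ‖eta r y‖), hn, one_mul]
      rw [← e3]
      refine norm_integral_le_of_norm_le (hix.norm.mul_const _) (Eventually.of_forall fun y => ?_)
      rw [← mul_sub, norm_mul]
      by_cases hy : 2 * r ≤ ‖x - y‖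
      · rw [(h2 _).2.2.1 hy]; simp
      · refine mul_le_mul_of_nonneg_left ?_ (norm_nonneg _)
        rw [← dist_eq_norm]
        refine (hd ?_).le
        rw [dist_comm, dist_eq_norm]
        linarith [not_le.1 hy]
    have hb2 : ∀ x, x ∉ K → Mo r φ x - φ x = 0 := fun x hx => by
      have hz : ∀ y, dist x y ≤ 2 → φ y = 0 := fun y hy => by
        by_contra hne
        exact hx (mem_cthickening_of_dist_le x y 2 _ (subset_tsupport _ hne) hy)
      have e : ∀ y, eta r (x - y) * φ y = 0 := fun y => by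
        by_cases hy : 2 * r ≤ ‖x - y‖
        · rw [(h2 _).2.2.1 hy, zero_mul]
        · rw [hz y (by rw [dist_eq_norm]; linarith [not_le.1 hy]), mul_zero]
      rw [hz x (by simp), sub_zero, Mo]
      simp only [e, integral_zero]
    have hmono : eLpNorm (fun x => Mo r φ x - φ x) 2 volume ≤
        eLpNorm (K.indicator fun _ => ε) 2 volume := by
      refine eLpNorm_mono_real fun x => ?_
      by_cases hx : x ∈ K
      · rw [indicator_of_mem hx]; exact hb1 x
      · rw [indicator_of_notMem hx, hb2 x hx, norm_zero]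
    refine hmono.trans ((eLpNorm_indicator_const_le ε 2).trans (le_of_eq ?_))
    rw [Real.enorm_eq_ofReal hε.le]
    norm_num
  rw [ENNReal.tendsto_nhds_zero]
  intro η hη
  have ht : Tendsto (fun ε : ℝ => ENNReal.ofReal ε * volume K ^ (1 / 2 : ℝ)) (𝓝[>] 0) (𝓝 0) := by
    have h0 : Tendsto (fun ε : ℝ => ENNReal.ofReal ε) (𝓝[>] 0) (𝓝 0) := by
      have := (ENNReal.continuous_ofReal.tendsto 0).mono_left
        (nhdsWithin_le_nhds (s := Ioi (0 : ℝ)))
      simpa using this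
    simpa using ENNReal.Tendsto.mul_const h0 (Or.inr hKm)
  obtain ⟨ε, hε1, hε2⟩ :=
    (((ENNReal.tendsto_nhds_zero.1 ht) η hη).and self_mem_nhdsWithin).exists
  filter_upwards [key ε hε2] with r hr using hr.trans hε1

theorem conv_l2 (hb : StmtBM1) (hN : 1 ≤ N) (g : E N → ℂ) (hg : MemLp g 2 volume) :
    Tendsto (fun r => eLpNorm (fun x => Mo r g x - g x) 2 volume) (𝓝[>] 0) (𝓝 0) := by
  rw [ENNReal.tendsto_nhds_zero]
  intro η hη
  have h3 : η / 3 ≠ 0 := (ENNReal.div_pos hη.ne' (by norm_num)).ne'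
  obtain ⟨φ, hc, hd, hφ, hm⟩ := hg.exists_hasCompactSupport_eLpNorm_sub_le ENNReal.ofNat_ne_top h3
  filter_upwards [ENNReal.tendsto_nhds_zero.1 (conv_cc hb hN φ hc hφ) (η / 3) h3.bot_lt,
    self_mem_nhdsWithin] with r hr hr0
  obtain ⟨hi, -⟩ := eta_int hb hN hr0
  obtain ⟨a1, a2, a3⟩ := young (eta r) (g - φ) hi (hg.sub hm)
  obtain ⟨b1, -, b3⟩ := young (eta r) φ hi hm
  obtain ⟨-, -, c3⟩ := young (eta r) g hi hg
  rw [eta_one hb hN hr0, one_mul] at a2
  have e : (fun x => Mo r g x - g x) =ᵐ[volume]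
      (fun x => ∫ y, eta r (x - y) * (g - φ) y) + (fun x => Mo r φ x - φ x) - (g - φ) := by
    filter_upwards [b3, c3] with x hx1 hx2
    simp only [Pi.add_apply, Pi.sub_apply, mul_sub, Mo]
    rw [integral_sub hx2 hx1]
    ring
  have m2 : AEStronglyMeasurable (fun x => Mo r φ x - φ x) volume := b1.1.sub hm.1
  rw [eLpNorm_congr_ae e]
  refine (eLpNorm_sub_le (a1.1.add m2) (hg.sub hm).1 one_le_two).trans ?_
  refine (add_le_add ((eLpNorm_add_le a1.1 m2 one_le_two).trans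
    (add_le_add (a2.trans hd) hr)) hd).trans (le_of_eq ?_)
  exact ENNReal.add_thirds η

theorem yg (_h0 : StmtT0) (hb : StmtBM1) : StmtYG := fun _ =>
  ⟨young, smooth, fun hN => conv_l2 hb hN⟩

end Pool.Agent.MP_fcd29e_an.H99
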